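import Mathlib

/-!
MP_44a56e_nt (uniform), module Cheb: many primes of the same size.
-/

set_option autoImplicit false

namespace NFU

private theorem cheb_sum (Y Z : ℝ) (hY : 0 ≤ Y) (hYZ : Y ≤ Z) :
    Chebyshev.theta Z - Chebyshev.theta Y ≤
      (((Finset.Ioc ⌊Y⌋₊ ⌊Z⌋₊).filter Nat.Prime).card : ℝ) * Real.log Z := by
  have hfl : ⌊Y⌋₊ ≤ ⌊Z⌋₊ := Nat.floor_mono hYZ
  have hsplit : Chebyshev.theta Z = Chebyshev.theta Y +
      ∑ p ∈ (Finset.Ioc ⌊Y⌋₊ ⌊Z⌋₊).filter Nat.Prime, Real.log p := by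
    unfold Chebyshev.theta
    rw [← Finset.sum_union]
    · congr 1
      rw [← Finset.filter_union]
      congr 1
      rw [Finset.Ioc_union_Ioc_eq_Ioc (Nat.zero_le _) hfl]
    · rw [Finset.disjoint_left]
      intro p hp hq
      rw [Finset.mem_filter, Finset.mem_Ioc] at hp hq
      omega
  rw [hsplit, add_sub_cancel_left]
  have : ∀ p ∈ (Finset.Ioc ⌊Y⌋₊ ⌊Z⌋₊).filter Nat.Prime, Real.log p ≤ Real.log Z := by
    intro p hp
    rw [Finset.mem_filter, Finset.mem_Ioc] at hp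
    have h1 : (p : ℝ) ≤ Z := (Nat.le_floor_iff (hY.trans hYZ)).1 hp.1.2
    exact Real.log_le_log (by exact_mod_cast hp.2.pos) h1
  have := Finset.sum_le_card_nsmul _ _ _ this
  rwa [nsmul_eq_mul] at this

theorem cheb : ∃ C1 : ℕ, 1 ≤ C1 ∧ ∀ (k : ℕ) (Y : ℝ), ((k : ℝ) + 2) ^ 2 ≤ Y →
    ∃ S : Finset ℕ, S.card = k ∧ ∀ p ∈ S, p.Prime ∧ Y ≤ p ∧ (p : ℝ) ≤ C1 * Y := by
  obtain ⟨C0, hC0⟩ := Chebyshev.psi_sub_theta_le_mul_sqrt
  obtain ⟨Q, hQ⟩ := exists_nat_ge (18 + 2 * |C0|)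
  have hC0' : 0 ≤ |C0| := abs_nonneg C0
  have hQ18 : (18 : ℝ) ≤ Q := by linarith
  refine ⟨Q ^ 2, ?_, ?_⟩
  · have : (1 : ℝ) ≤ (Q : ℝ) ^ 2 := by nlinarith
    exact_mod_cast this
  intro k Y hY
  have hk0 : (0 : ℝ) ≤ k := Nat.cast_nonneg k
  set s : ℝ := Real.sqrt Y with hs
  have hY0 : 0 ≤ Y := by nlinarith
  have hsY : s ^ 2 = Y := Real.sq_sqrt hY0
  have hsk : (k : ℝ) + 2 ≤ s := by
    rw [hs]
    exact Real.le_sqrt_of_sq_le hY
  have hs2 : 2 ≤ s := by linarith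
  have hs0 : 0 < s := by linarith
  set Z : ℝ := (Q : ℝ) ^ 2 * Y with hZ
  have hZs : Z = ((Q : ℝ) * s) ^ 2 := by rw [hZ, mul_pow, hsY]
  have hQs : 0 < (Q : ℝ) * s := by positivity
  have hsqZ : Real.sqrt Z = (Q : ℝ) * s := by rw [hZs, Real.sqrt_sq hQs.le]
  have hYZ : Y ≤ Z := by
    rw [hZ]
    have : (1 : ℝ) ≤ (Q : ℝ) ^ 2 := by nlinarith
    nlinarith
  have hZ0 : 0 ≤ Z := hY0.trans hYZ
  have h1 := Chebyshev.psi_ge' hZ0
  have h2 := hC0 Z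
  have h3 := Chebyshev.theta_le_log4_mul_x hY0
  have h4 := cheb_sum Y Z hY0 hYZ
  rw [hsqZ] at h2
  have hlog2 : (1 : ℝ) / 2 ≤ Real.log 2 := by linarith [Real.log_two_gt_d9]
  have hlog2' : Real.log 2 ≤ 1 := by linarith [Real.log_two_lt_d9]
  have hlog4 : Real.log 4 = 2 * Real.log 2 := by
    rw [show (4 : ℝ) = 2 ^ 2 by norm_num, Real.log_pow]; norm_num
  have hlogZ2 : Real.log (Z + 2) ≤ 2 * (Q * s + 1) := by
    have h5 : Real.log (Z + 2) ≤ Real.log ((Q * s + 2) ^ 2) := by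
      apply Real.log_le_log (by linarith)
      rw [hZs]; nlinarith
    rw [Real.log_pow] at h5
    have h6 := Real.log_le_sub_one_of_pos (show (0 : ℝ) < Q * s + 2 by linarith)
    push_cast at h5
    linarith
  have hlogZ : Real.log Z ≤ 2 * (Q * s) := by
    rw [hZs, Real.log_pow]
    have h6 := Real.log_le_sub_one_of_pos hQs
    push_cast
    linarith
  have hlogZ0 : 0 < Real.log Z := by
    apply Real.log_pos
    rw [hZs]
    nlinarith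
  have hC0Q : C0 * (Q * s) ≤ |C0| * (Q * s) :=
    mul_le_mul_of_nonneg_right (le_abs_self C0) hQs.le
  have hkey : (k : ℝ) * Real.log Z ≤ Chebyshev.theta Z - Chebyshev.theta Y := by
    have h7 : (k : ℝ) * Real.log Z ≤ s * (2 * (Q * s)) := by
      apply mul_le_mul (by linarith) hlogZ hlogZ0.le hs0.le
    have h8 : Q ^ 2 * s ^ 2 * (1 / 2) ≤ Z * Real.log 2 := by
      rw [hZ, ← hsY]
      exact mul_le_mul_of_nonneg_left hlog2 (by positivity)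
    have h9 : Chebyshev.theta Y ≤ 2 * s ^ 2 := by
      rw [hlog4] at h3
      rw [hsY]
      nlinarith
    have hss : s ≤ s ^ 2 := by nlinarith
    have h1s : 1 ≤ s ^ 2 := by nlinarith
    have h10 : (Q : ℝ) * s ≤ Q * s ^ 2 := mul_le_mul_of_nonneg_left hss (by positivity)
    have h11 : |C0| * (Q * s) ≤ |C0| * (Q * s ^ 2) := mul_le_mul_of_nonneg_left h10 hC0'
    have h12 : (5 + 4 * (Q : ℝ) + |C0| * Q) * s ^ 2 ≤ (Q ^ 2 * (1 / 2)) * s ^ 2 := by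
      apply mul_le_mul_of_nonneg_right _ (by positivity)
      nlinarith [mul_le_mul_of_nonneg_right hQ (by linarith : (0 : ℝ) ≤ (Q : ℝ))]
    nlinarith
  have hcard : k ≤ ((Finset.Ioc ⌊Y⌋₊ ⌊Z⌋₊).filter Nat.Prime).card := by
    have : (k : ℝ) * Real.log Z ≤
        (((Finset.Ioc ⌊Y⌋₊ ⌊Z⌋₊).filter Nat.Prime).card : ℝ) * Real.log Z := hkey.trans h4
    exact_mod_cast le_of_mul_le_mul_right this hlogZ0
  obtain ⟨S, hS, hSc⟩ := Finset.exists_subset_card_eq hcard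
  refine ⟨S, hSc, ?_⟩
  intro p hp
  have hp' := hS hp
  rw [Finset.mem_filter, Finset.mem_Ioc] at hp'
  refine ⟨hp'.2, ?_, ?_⟩
  · exact (Nat.lt_of_floor_lt hp'.1.1).le
  · have := (Nat.le_floor_iff hZ0).1 hp'.1.2
    push_cast
    exact this

theorem exists_not_dvdU (S : Finset ℕ) (hS : ∀ p ∈ S, p.Prime) (Y : ℝ) (hY : 1 ≤ Y)
    (hSY : ∀ p ∈ S, Y ≤ p) (Δ : ℤ) (hΔ : Δ ≠ 0) (hlt : |(Δ : ℝ)| < Y ^ S.card) :
    ∃ p ∈ S, ¬ ((p : ℤ) ∣ Δ) := by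
  by_contra hcon
  push Not at hcon
  have hdvd : (∏ p ∈ S, p) ∣ Δ.natAbs := by
    apply Finset.prod_primes_dvd
    · intro p hp
      exact (hS p hp).prime
    · intro p hp
      exact Int.natCast_dvd.1 (hcon p hp)
  have hle : (∏ p ∈ S, p) ≤ Δ.natAbs :=
    Nat.le_of_dvd (Int.natAbs_pos.2 hΔ) hdvd
  have h1 : Y ^ S.card ≤ ((∏ p ∈ S, p : ℕ) : ℝ) := by
    push_cast
    have := Finset.prod_le_prod (s := S) (f := fun _ : ℕ => Y) (g := fun p : ℕ => (p : ℝ))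
      (fun p _ => by linarith) (fun p hp => hSY p hp)
    rwa [Finset.prod_const] at this
  have h2 : ((Δ.natAbs : ℕ) : ℝ) = |(Δ : ℝ)| := by
    rw [Nat.cast_natAbs, Int.cast_abs]
  have h3 : ((∏ p ∈ S, p : ℕ) : ℝ) ≤ |(Δ : ℝ)| := by
    rw [← h2]; exact_mod_cast hle
  linarith

end NFU
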