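import Mathlib

/-!
MP_44a56e_nt (uniform), module Chol (about 80 lines): the Cholesky decomposition.

PROOF. Mathlib has `LDL.lowerInv`, `LDL.diag`, `LDL.diag_eq_lowerInv_conj`, `LDL.lowerInv_triangular`, `LDL.lower_conj_diag` (Mathlib/LinearAlgebra/Matrix/LDL.lean). `A = L D Lᴴ` with `L = LDL.lower`, the inverse of the lower triangular `LDL.lowerInv`, so lower triangular
(`Matrix.blockTriangular_inv_of_blockTriangular`), `D` diagonal with positive entries (`A.PosDef` and `D = lowerInv A lowerInvᴴ`). `R = sqrt(D) Lᵀ`. (Another way: induction on `n` with the Schur complement, or `gramSchmidt`.)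
-/

set_option autoImplicit false

namespace NFU

theorem chol {n : ℕ} (A : Matrix (Fin n) (Fin n) ℝ) (hA : A.PosDef) :
    ∃ R : Matrix (Fin n) (Fin n) ℝ, (∀ i j, j < i → R i j = 0) ∧ R.transpose * R = A := by
  have hW := LDL.diag_eq_lowerInv_conj hA
  have hL := LDL.lower_conj_diag hA
  have htri : (LDL.lowerInv hA).BlockTriangular OrderDual.toDual := by
    intro i j hij
    exact LDL.lowerInv_triangular hA (OrderDual.toDual_lt_toDual.1 hij)
  have htri' : (LDL.lower hA).BlockTriangular OrderDual.toDual := by
    unfold LDL.lower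
    exact Matrix.blockTriangular_inv_of_blockTriangular htri
  have hinj : Function.Injective fun v => Matrix.vecMul v (LDL.lowerInv hA) :=
    Matrix.vecMul_injective_of_isUnit (isUnit_of_invertible (LDL.lowerInv hA))
  have hpd : (LDL.diag hA).PosDef := by
    rw [hW]
    exact hA.mul_mul_conjTranspose_same hinj
  have hpos : ∀ i, 0 < LDL.diagEntries hA i := by
    intro i
    have h1 := hpd.diag_pos (i := i)
    unfold LDL.diag at h1
    rwa [Matrix.diagonal_apply_eq] at h1
  rw [Matrix.conjTranspose_eq_transpose_of_trivial] at hL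
  refine ⟨Matrix.diagonal (fun i => Real.sqrt (LDL.diagEntries hA i)) * (LDL.lower hA).transpose,
    ?_, ?_⟩
  · intro i j hij
    rw [Matrix.diagonal_mul, Matrix.transpose_apply,
      htri' (OrderDual.toDual_lt_toDual.2 hij), mul_zero]
  · rw [Matrix.transpose_mul, Matrix.transpose_transpose, Matrix.diagonal_transpose,
      Matrix.mul_assoc, ← Matrix.mul_assoc (Matrix.diagonal _) (Matrix.diagonal _),
      Matrix.diagonal_mul_diagonal]
    have h2 : (fun i => Real.sqrt (LDL.diagEntries hA i) * Real.sqrt (LDL.diagEntries hA i)) =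
        LDL.diagEntries hA := by
      funext i
      exact Real.mul_self_sqrt (hpos i).le
    rw [h2, ← Matrix.mul_assoc]
    exact hL

end NFU
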