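import Pool.Agent.Lib.NFU.FibU
import Pool.Agent.Lib.NFH.Cls
import Pool.Agent.Lib.NFH.Leading
import Pool.Agent.Lib.NFH.JetB

/-!
MP_44a56e_nt (uniform), module ClsFibU (about 130 lines): explicit version of `NFH.class_fibre`.

PROOF: the proof of `NFH.class_fibre` (Lib/NFH/ClsFib.lean, copy it) with `fibreU (r+1) (dg m r k + 1) (k+1)` in place of `fibre`.
-/

set_option autoImplicit false

open MvPolynomial Module NumberField NFH

namespace NFU

theorem class_fibreU (n m r k κ d1 : ℕ) (c : ℝ) (hc : 0 < c)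
    (hgrow : Grw (r + 1) (dg m r k + 1) (k + 1) κ d1 c)
    (b : Fin n × mon (r + 1) k → (Fin (r + 1) →₀ ℕ)) (hb : ∀ i, (b i).degree ≤ dg m r k)
    (ι : Type) [Fintype ι] (K : ι → Type) [∀ i, Field (K i)] [∀ i, NumberField (K i)]
    (x : ∀ i, Fin (r + 1) → 𝓞 (K i)) (R : ℝ) (p : ℕ) (hR : 1 ≤ R) (hp : p.Prime)
    (hpd : (d1 + 1) ^ (r + 1) ≤ p ^ κ) (hpR : R ^ c ≤ (p : ℝ)) (hn : ∀ i, finrank ℚ (K i) = n)
    (hx : ∀ i (φ : K i →+* ℂ) (j : Fin (r + 1)), ‖φ (x i j : K i)‖ ≤ R)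
    (hd1 : ∀ i, ¬ (p : ℤ) ∣ det1 b (x i)) (hd2 : ∀ i, ¬ (p : ℤ) ∣ det2 n (x i))
    (cl : Cl n r p) (hcl : ∀ i, InCl (x i) cl) (hinj : Function.Injective fun i => kerI (x i)) :
    Fintype.card ι ≤ d1 := by
  rcases isEmpty_or_nonempty ι with hι | ⟨⟨i0⟩⟩
  · rw [Fintype.card_eq_zero]; exact Nat.zero_le _
  obtain ⟨hmon, hdeg⟩ := pol_monic cl.1
  have hev : ∀ F : Polynomial ℤ, Polynomial.aeval
      (Ideal.Quotient.mk (Ideal.span {(p : 𝓞 (K i0))}) (x i0 0)) F =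
      Ideal.Quotient.mk (Ideal.span {(p : 𝓞 (K i0))}) (Polynomial.aeval (x i0 0) F) := by
    intro F
    exact Polynomial.aeval_algHom_apply
      (Ideal.Quotient.mkₐ ℤ (Ideal.span {(p : 𝓞 (K i0))})) (x i0 0) F
  have hz : ∀ y : 𝓞 (K i0), Ideal.Quotient.mk (Ideal.span {(p : 𝓞 (K i0))}) y = 0 ↔
      (p : 𝓞 (K i0)) ∣ y := by
    intro y
    rw [Ideal.Quotient.eq_zero_iff_mem, Ideal.mem_span_singleton]
  have hp0 : ((p : ℕ) : 𝓞 (K i0) ⧸ Ideal.span {(p : 𝓞 (K i0))}) = 0 := by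
    have h := (hz (p : 𝓞 (K i0))).2 (dvd_refl _)
    rwa [map_natCast] at h
  obtain ⟨G, hG, hG'⟩ := leading (A := 𝓞 (K i0) ⧸ Ideal.span {(p : 𝓞 (K i0))}) (r := r) p n hp0
    (Polynomial.X ^ n + pol cl.1) hmon hdeg
    (fun j => Ideal.Quotient.mk (Ideal.span {(p : 𝓞 (K i0))}) (x i0 j))
    (by
      exact (hev _).trans ((hz _).2 (hcl i0).1))
    (by
      have h := cl_unit (hn i0) (x i0) p hp (hd2 i0) cl (hcl i0)
      rw [← hev] at h
      exact h)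
    (by
      intro ρ hρ h
      have h' : Polynomial.aeval
        (Ideal.Quotient.mk (Ideal.span {(p : 𝓞 (K i0))}) (x i0 0)) ρ = 0 := h
      rw [hev, hz] at h'
      exact der_inj n (x i0 0) p hp (hd2 i0) ρ hρ h')
    (fun j => pol (cl.2 j))
    (by
      intro j
      have h : Ideal.Quotient.mk (Ideal.span {(p : 𝓞 (K i0))}) (x i0 j.succ) =
          Ideal.Quotient.mk (Ideal.span {(p : 𝓞 (K i0))})
            (Polynomial.aeval (x i0 0) (pol (cl.2 j))) := by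
        rw [← sub_eq_zero, ← map_sub, hz]
        exact (hcl i0).2 j
      exact h.trans (hev _).symm)
    (k + 1) (dg m r k)
    (by
      intro F
      obtain ⟨G, hG, hG'⟩ := interp n k (dg m r k) (hn i0) (x i0) b hb p hp
        (hd1 i0) F
      refine ⟨G, hG, fun α hα => ?_⟩
      have h1 := tay_map (Ideal.Quotient.mk (Ideal.span {(p : 𝓞 (K i0))})) (x i0) (F - G)
      rw [← h1, coeff_map, hz]
      exact hG' α (Nat.lt_succ_iff.1 hα))
  exact fibreU (r + 1) (dg m r k + 1) (k + 1) κ d1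
    (Nat.succ_le_succ (Nat.zero_le _)) (Nat.succ_le_succ (Nat.zero_le _)) c hc hgrow ι K x R p
    (clsI p (Polynomial.X ^ n + pol cl.1) fun j => pol (cl.2 j)) G hR hp hpd hpR
    hx (Ideal.subset_span (Or.inl (Or.inl rfl))) (fun i F hF => cl_star (x i) cl (hcl i) F hF)
    hG hG' hinj

end NFU
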