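import Pool.Agent.Lib.NFU.Defs

/-!
MP_44a56e_nt (uniform), module MonC (about 60 lines): the number of monomials.

PROOF. `card (mon r j) 2^(-j) ≤ ∑_{α ∈ mon r j} ∏_i 2^(-α_i)` (as `|α| ≤ j`) `≤ ∑_{α ∈ {0..j}^r} ∏_i 2^(-α_i) = (∑_{a ≤ j} 2^(-a))^r ≤ 2^r` (`mon r j` injects into the functions `Fin r → range (j+1)`; `Finset.prod_univ_sum` / `Fintype.piFinset`). Or: `card (mon r j) = (r + j).choose j ≤ 2^(r+j)`.
-/

set_option autoImplicit false

open NFH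

namespace NFU

theorem card_mon_le (r j : ℕ) : (mon r j).card ≤ 2 ^ (r + j) := by
  classical
  have hle : ∀ α ∈ mon r j, (1 : ℝ) ≤ 2 ^ j * ∏ i, (1 / 2 : ℝ) ^ α i := by
    intro α hα
    rw [mem_mon, Finsupp.degree_eq_sum] at hα
    rw [Finset.prod_pow_eq_pow_sum]
    have h1 : (1 / 2 : ℝ) ^ j ≤ (1 / 2 : ℝ) ^ (∑ i, α i) :=
      pow_le_pow_of_le_one (by norm_num) (by norm_num) hα
    calc (1 : ℝ) = 2 ^ j * (1 / 2 : ℝ) ^ j := by
          rw [← mul_pow]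
          norm_num
      _ ≤ 2 ^ j * (1 / 2 : ℝ) ^ (∑ i, α i) := mul_le_mul_of_nonneg_left h1 (by positivity)
  have hsub : (mon r j).image (fun α : Fin r →₀ ℕ => (α : Fin r → ℕ))
      ⊆ Fintype.piFinset (fun _ : Fin r => Finset.range (j + 1)) := by
    intro f hf
    obtain ⟨α, hα, rfl⟩ := Finset.mem_image.mp hf
    rw [mem_mon, Finsupp.degree_eq_sum] at hα
    rw [Fintype.mem_piFinset]
    intro i
    rw [Finset.mem_range]
    have h2 : α i ≤ ∑ i, α i := Finset.single_le_sum (fun _ _ => Nat.zero_le _) (Finset.mem_univ i)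
    omega
  have hsum : ∑ α ∈ mon r j, ∏ i, (1 / 2 : ℝ) ^ α i ≤ 2 ^ r := by
    have h3 : ∑ α ∈ mon r j, ∏ i, (1 / 2 : ℝ) ^ α i
        = ∑ f ∈ (mon r j).image (fun α : Fin r →₀ ℕ => (α : Fin r → ℕ)), ∏ i, (1 / 2 : ℝ) ^ f i := by
      rw [Finset.sum_image]
      intro α _ β _ h
      exact DFunLike.coe_injective h
    rw [h3]
    calc ∑ f ∈ (mon r j).image (fun α : Fin r →₀ ℕ => (α : Fin r → ℕ)), ∏ i, (1 / 2 : ℝ) ^ f i
        ≤ ∑ f ∈ Fintype.piFinset (fun _ : Fin r => Finset.range (j + 1)), ∏ i, (1 / 2 : ℝ) ^ f i :=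
          Finset.sum_le_sum_of_subset_of_nonneg hsub
            (fun f _ _ => Finset.prod_nonneg fun i _ => by positivity)
      _ = ∏ _i : Fin r, ∑ a ∈ Finset.range (j + 1), (1 / 2 : ℝ) ^ a := by
          rw [Finset.prod_univ_sum]
      _ ≤ ∏ _i : Fin r, (2 : ℝ) := by
          refine Finset.prod_le_prod (fun i _ => Finset.sum_nonneg fun a _ => by positivity)
            (fun i _ => ?_)
          exact sum_geometric_two_le (j + 1)
      _ = 2 ^ r := by simp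
  have hfin : ((mon r j).card : ℝ) ≤ 2 ^ (r + j) := by
    calc ((mon r j).card : ℝ) = ∑ _α ∈ mon r j, (1 : ℝ) := by simp
      _ ≤ ∑ α ∈ mon r j, 2 ^ j * ∏ i, (1 / 2 : ℝ) ^ α i := Finset.sum_le_sum hle
      _ = 2 ^ j * ∑ α ∈ mon r j, ∏ i, (1 / 2 : ℝ) ^ α i := by rw [Finset.mul_sum]
      _ ≤ 2 ^ j * 2 ^ r := mul_le_mul_of_nonneg_left hsum (by positivity)
      _ = 2 ^ (r + j) := by rw [pow_add, mul_comm]
  exact_mod_cast hfin

theorem one_le_card_mon (r j : ℕ) : 1 ≤ (mon r j).card := by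
  rw [Nat.one_le_iff_ne_zero, Finset.card_ne_zero]
  refine ⟨0, ?_⟩
  rw [mem_mon]
  simp

end NFU
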