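import Pool.Agent.Lib.NFU.Defs
import Pool.Agent.Lib.NFU.MonC
import Pool.Agent.Lib.NFH.JetB

/-!
MP_44a56e_nt (uniform), module DeltaU (about 110 lines): explicit version of `NFH.delta_bound`.

PROOF. As `NFH.delta_bound` (Lib/NFH/DeltaB.lean): `gram_bound` (GramL) with `B = (2R)^D0 ≤ R^(2 D0)` (`R ≥ 2`), `D0 = dg m r k`, `N = n * nj r k ≤ R`: `|det1| ≤ N! (n nj B^2)^N ≤ R^N (R · R^(4 D0))^N = R^((2 + 4 D0) N)`;
with `B = R^n`, `n ≤ N ≤ R` (`nj ≥ 1`, `one_le_card_mon`): `|det2| ≤ n! (n B^2)^n ≤ R^n (R · R^(2n))^n = R^(n (2 + 2n))`. The product is `≤ R^(ex n m r k)`.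
-/

set_option autoImplicit false

open MvPolynomial Module NumberField NFH

namespace NFU

theorem delta_boundU (n m r k : ℕ) (b : Fin n × mon (r + 1) k → (Fin (r + 1) →₀ ℕ))
    (hb : ∀ i, (b i).degree ≤ dg m r k) (K : Type) [Field K] [NumberField K]
    (hn : finrank ℚ K = n) (x : Fin (r + 1) → 𝓞 K) (R : ℝ) (hR : 2 ≤ R)
    (hx : ∀ (φ : K →+* ℂ) (j : Fin (r + 1)), ‖φ (x j : K)‖ ≤ R)
    (hsz : ((n * nj r k : ℕ) : ℝ) ≤ R) :
    |((det1 b x * det2 n x : ℤ) : ℝ)| ≤ R ^ ex n m r k := by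
  have hR1 : (1 : ℝ) ≤ R := by linarith
  have hR0 : (0 : ℝ) ≤ R := by linarith
  have hM1 : 1 ≤ nj r k := one_le_card_mon (r + 1) k
  have hcard : Fintype.card (Fin n × mon (r + 1) k) = n * nj r k := by
    rw [Fintype.card_prod, Fintype.card_fin, Fintype.card_coe]
    rfl
  have hcM : Fintype.card (mon (r + 1) k) = nj r k := by
    rw [Fintype.card_coe]
    rfl
  have hnR : (n : ℝ) ≤ R := by
    refine le_trans ?_ hsz
    exact_mod_cast Nat.le_mul_of_pos_right n hM1
  have hfac : ∀ a : ℕ, (a : ℝ) ≤ R → ((a.factorial : ℕ) : ℝ) ≤ R ^ a := by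
    intro a ha
    have h1 : ((a.factorial : ℕ) : ℝ) ≤ (a : ℝ) ^ a := by
      exact_mod_cast Nat.factorial_le_pow a
    exact h1.trans (pow_le_pow_left₀ (Nat.cast_nonneg a) ha a)
  have h1 : |((det1 b x : ℤ) : ℝ)| ≤ R ^ ((2 + 4 * dg m r k) * (n * nj r k)) := by
    have h2 := gram_bound (fun (i : Fin n × mon (r + 1) k) (α : mon (r + 1) k) =>
      jet x α.1 (b i)) (R ^ (2 * dg m r k)) (by positivity) (by
        intro φ i α
        have h3 : φ ((jet x α.1 (b i) : 𝓞 K) : K) =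
            jet (fun j => φ (x j : K)) α.1 (b i) := by
          have h4 := jet_map (φ.comp (algebraMap (𝓞 K) K)) x α.1 (b i)
          exact h4
        show ‖φ ((jet x α.1 (b i) : 𝓞 K) : K)‖ ≤ _
        rw [h3]
        refine le_trans (jet_norm _ R hR1 (fun j => hx φ j) _ _) ?_
        have h5 : (2 : ℝ) ^ (b i).degree ≤ R ^ dg m r k :=
          (pow_le_pow_left₀ (by norm_num) hR _).trans (pow_le_pow_right₀ hR1 (hb i))
        have h6 : R ^ (b i).degree ≤ R ^ dg m r k := pow_le_pow_right₀ hR1 (hb i)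
        have h7 : R ^ (2 * dg m r k) = R ^ dg m r k * R ^ dg m r k := by
          rw [two_mul, pow_add]
        rw [h7]
        exact mul_le_mul h5 h6 (by positivity) (by positivity))
    unfold det1
    refine le_trans h2 ?_
    rw [hn, hcard, hcM]
    have h8 : (n : ℝ) * (nj r k : ℕ) * (R ^ (2 * dg m r k)) ^ 2 ≤ R ^ (1 + 4 * dg m r k) := by
      have h9 : R ^ (1 + 4 * dg m r k) = R * (R ^ (2 * dg m r k)) ^ 2 := by
        rw [← pow_mul, pow_add, pow_one]
        congr 2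
        ring
      rw [h9]
      refine mul_le_mul_of_nonneg_right ?_ (by positivity)
      exact_mod_cast hsz
    have h10 : ((n * nj r k).factorial : ℝ) * ((n : ℝ) * (nj r k : ℕ) *
        (R ^ (2 * dg m r k)) ^ 2) ^ (n * nj r k) ≤
        R ^ (n * nj r k) * (R ^ (1 + 4 * dg m r k)) ^ (n * nj r k) :=
      mul_le_mul (hfac _ hsz) (pow_le_pow_left₀ (by positivity) h8 _) (by positivity)
        (by positivity)
    refine h10.trans (le_of_eq ?_)
    rw [← pow_mul, ← pow_add]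
    congr 1
    ring
  have h2 : |((det2 n x : ℤ) : ℝ)| ≤ R ^ (n * (2 + 2 * n)) := by
    have h2 := gram_bound (fun (i : Fin n) (_ : Unit) => x 0 ^ (i : ℕ)) (R ^ n)
      (by positivity) (by
        intro φ i _
        have h3 : φ ((x 0 ^ (i : ℕ) : 𝓞 K) : K) = (φ (x 0 : K)) ^ (i : ℕ) := by
          simp
        show ‖φ ((x 0 ^ (i : ℕ) : 𝓞 K) : K)‖ ≤ _
        rw [h3, norm_pow]
        refine le_trans (pow_le_pow_left₀ (norm_nonneg _) (hx φ 0) _) ?_
        exact pow_le_pow_right₀ hR1 i.2.le)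
    unfold det2
    refine le_trans h2 ?_
    rw [hn, Fintype.card_fin]
    simp only [Fintype.card_unit, Nat.cast_one, mul_one]
    have h8 : (n : ℝ) * (R ^ n) ^ 2 ≤ R ^ (1 + 2 * n) := by
      have h9 : R ^ (1 + 2 * n) = R * (R ^ n) ^ 2 := by
        rw [← pow_mul, pow_add, pow_one]
        congr 2
        ring
      rw [h9]
      exact mul_le_mul_of_nonneg_right hnR (by positivity)
    have h10 : (n.factorial : ℝ) * ((n : ℝ) * (R ^ n) ^ 2) ^ n ≤
        R ^ n * (R ^ (1 + 2 * n)) ^ n :=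
      mul_le_mul (hfac _ hnR) (pow_le_pow_left₀ (by positivity) h8 _) (by positivity)
        (by positivity)
    refine h10.trans (le_of_eq ?_)
    rw [← pow_mul, ← pow_add]
    congr 1
    ring
  push_cast
  rw [abs_mul]
  refine le_trans (mul_le_mul h1 h2 (abs_nonneg _) (by positivity)) (le_of_eq ?_)
  rw [← pow_add]
  rfl

end NFU
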