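import Pool.Agent.Lib.NFU.ShortW
import Pool.Agent.Lib.NFU.TupleU
import Pool.Agent.Lib.NFU.ClsFibU
import Pool.Agent.Lib.NFU.DeltaU
import Pool.Agent.Lib.NFU.Cheb
import Pool.Agent.Lib.NFH.CountC

/-!
MP_44a56e_nt (uniform), module Core (about 200 lines): the explicit count.

PROOF of `core`. As `NFH.main` (Lib/NFH/Final.lean), with the finite set `S` of primes in place of the sequence `p i`, `i < a+1`. For `K ∈ FS n X` choose the tuple `x K` from `tupleU` with `w` from `short_indep`, `W = 2 n X^(1/n)` (`|discr K| ≤ X`): `‖φ (x K j)‖ ≤ sz n m r k * W ≤ R`. `Δ = det1 * det2 ≠ 0`,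
`|Δ| ≤ R^(ex n m r k) < (R^c)^(card S)` (`delta_boundU`, `hSe`), so `exists_not_dvdU` (`Y = R^c ≥ 1`): a prime `p ∈ S` not dividing `det1`, `det2`; `exists_cl`: a class. For `p ∈ S` and a class `cl : Cl n r p` the set of the `K ∈ FS n X` with this prime (i.e. `p ∤ det1, det2`) and `InCl (x K) cl` has at most `d1 * n` elements
(`count_fields`, `prim_of_det`, `class_fibreU`). The number of classes is `p^(n (r+1)) ≤ P^(n (r+1))`.
-/

set_option autoImplicit false

open MvPolynomial Module NumberField NFH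

namespace NFU

private theorem card_ClU (n r p : ℕ) : Fintype.card (Cl n r p) = p ^ (n * (r + 1)) := by
  simp only [Cl, Fintype.card_prod, Fintype.card_fun, Fintype.card_fin]
  rw [← pow_mul, ← pow_add]
  congr 1
  ring

private theorem exists_xU (n m r k : ℕ) (X R : ℝ)
    (hR : (sz n m r k : ℝ) * (2 * n * X ^ ((1 : ℝ) / n)) ≤ R)
    (b : Fin n × mon (r + 1) k → (Fin (r + 1) →₀ ℕ))
    (ht : ∀ (K : Type) [Field K] [NumberField K], finrank ℚ K = n →
        ∀ w : Fin n → 𝓞 K, LinearIndependent ℚ (fun i => (w i : K)) →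
        ∀ W : ℝ, (∀ (i : Fin n) (φ : K →+* ℂ), ‖φ (w i : K)‖ ≤ W) →
        ∃ x : Fin (r + 1) → 𝓞 K,
          (∀ (φ : K →+* ℂ) (j : Fin (r + 1)), ‖φ (x j : K)‖ ≤ sz n m r k * W) ∧
          det1 b x ≠ 0 ∧ det2 n x ≠ 0)
    (K : IntermediateField ℚ ℂ) : ∃ x : Fin (r + 1) → 𝓞 K, K ∈ FS n X →
      ∃ _ : NumberField K, finrank ℚ K = n ∧
        (∀ (φ : K →+* ℂ) (j : Fin (r + 1)), ‖φ (x j : K)‖ ≤ R) ∧ det1 b x ≠ 0 ∧
          det2 n x ≠ 0 := by
  by_cases hK : K ∈ FS n X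
  · obtain ⟨h1, h2, h3⟩ := hK
    obtain ⟨w, hw1, hw2⟩ := short_indep K n (by convert h1)
    obtain ⟨x, hx1, hx2, hx3⟩ := ht K (by convert h1) w hw1 (2 * n * X ^ ((1 : ℝ) / n))
      (fun i φ => (hw2 i φ).trans
        (mul_le_mul_of_nonneg_left (Real.rpow_le_rpow (abs_nonneg _) h3 (by positivity))
          (by positivity)))
    exact ⟨x, fun _ => ⟨h2, h1, fun φ j => (hx1 φ j).trans hR, hx2, hx3⟩⟩
  · exact ⟨0, fun h => absurd h hK⟩

theorem core (n m r k κ d1 : ℕ) (c : ℝ) (hn : 1 ≤ n) (hm : 1 ≤ m) (h : n ≤ m ^ (r + 1))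
    (hc : 0 < c) (hgrow : Grw (r + 1) (dg m r k + 1) (k + 1) κ d1 c) (X R : ℝ) (hX : 1 ≤ X)
    (hR : 2 ≤ R) (hRX : (sz n m r k : ℝ) * (2 * n * X ^ ((1 : ℝ) / n)) ≤ R)
    (hsz : ((n * nj r k : ℕ) : ℝ) ≤ R) (S : Finset ℕ) (hS : ∀ p ∈ S, p.Prime)
    (hSR : ∀ p ∈ S, R ^ c ≤ (p : ℝ)) (hSκ : ∀ p ∈ S, (d1 + 1) ^ (r + 1) ≤ p ^ κ)
    (hSe : R ^ ex n m r k < (R ^ c) ^ S.card) (P : ℕ) (hSP : ∀ p ∈ S, p ≤ P) :
    (FS n X).Finite ∧ (FS n X).ncard ≤ S.card * (P ^ (n * (r + 1)) * (d1 * n)) := by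
  classical
  obtain ⟨b, hb, ht⟩ := tupleU n m r k hn hm h
  have hR1 : 1 ≤ R := by linarith
  have hR0 : 0 < R := by linarith
  have hRc : 1 ≤ R ^ c := Real.one_le_rpow hR1 hc.le
  choose x hx using exists_xU n m r k X R hRX b ht
  set Sf : ∀ p : ℕ, Cl n r p → Set (IntermediateField ℚ ℂ) := fun p cl =>
    {K | K ∈ FS n X ∧ p ∈ S ∧ ∃ _ : NumberField K, ¬ (p : ℤ) ∣ det1 b (x K) ∧
      ¬ (p : ℤ) ∣ det2 n (x K) ∧ InCl (x K) cl} with hSf
  have hcount : ∀ (p : ℕ) (cl : Cl n r p), (Sf p cl).Finite ∧ (Sf p cl).ncard ≤ d1 * n := by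
    intro p cl
    by_cases hpS : p ∈ S
    · refine count_fields n r d1 hn (Sf p cl) (fun K hK => hK.1.1) x ?_ ?_
      · intro K hK
        obtain ⟨hK0, hK1, hK2, hK3⟩ := hx K hK.1
        have := prim_of_det K n (by convert hK1) (x K 0) hK3.2
        convert this
      · intro ι hι hinj
        have hNF : ∀ K : {K // K ∈ ι}, NumberField (K.1 : IntermediateField ℚ ℂ) := by
          intro K
          obtain ⟨hK0, -⟩ := hx K.1 (hι K.1 K.2).1
          exact hK0
        have h1 := class_fibreU n m r k κ d1 c hc hgrow b hb {K // K ∈ ι}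
          (fun K => (K.1 : IntermediateField ℚ ℂ))
          (fun K => x K.1) R p hR1 (hS p hpS) (hSκ p hpS) (hSR p hpS) (by
            intro K
            convert (hι K.1 K.2).1.1) (by
            intro K φ j
            obtain ⟨hK0, hK1, hK2, hK3⟩ := hx K.1 (hι K.1 K.2).1
            exact hK2 φ j) (by
            intro K
            obtain ⟨hK0, hK', hK1, hK2, hK3, hK4⟩ := hι K.1 K.2
            exact hK2) (by
            intro K
            obtain ⟨hK0, hK', hK1, hK2, hK3, hK4⟩ := hι K.1 K.2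
            exact hK3) cl (by
            intro K
            obtain ⟨hK0, hK', hK1, hK2, hK3, hK4⟩ := hι K.1 K.2
            exact hK4) (by
            intro K L hKL
            exact Subtype.ext (hinj K.1 K.2 L.1 L.2 hKL))
        rw [Fintype.card_coe] at h1
        exact h1
    · have h1 : Sf p cl = ∅ := by
        rw [Set.eq_empty_iff_forall_notMem]
        exact fun K hK => hpS hK.2.1
      rw [h1]
      exact ⟨Set.finite_empty, by rw [Set.ncard_empty]; exact Nat.zero_le _⟩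
  have hcover : ∀ K ∈ FS n X, ∃ p ∈ S, ∃ cl : Cl n r p, K ∈ Sf p cl := by
    intro K hK
    obtain ⟨hK0, hK1, hK2, hK3, hK4⟩ := hx K hK
    have h1 := delta_boundU n m r k b hb K (by convert hK1) (x K) R hR hK2 hsz
    obtain ⟨p, hp, hdvd⟩ := exists_not_dvdU S hS (R ^ c) hRc hSR
      (det1 b (x K) * det2 n (x K)) (mul_ne_zero hK3 hK4) (lt_of_le_of_lt h1 hSe)
    have h6 : ¬ (p : ℤ) ∣ det1 b (x K) := fun h => hdvd (Dvd.dvd.mul_right h _)
    have h7 : ¬ (p : ℤ) ∣ det2 n (x K) := fun h => hdvd (Dvd.dvd.mul_left h _)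
    obtain ⟨cl, hcl⟩ := exists_cl (by convert hK1) (x K) p (hS p hp) h7
    exact ⟨p, hp, cl, hK, hp, hK0, h6, h7, hcl⟩
  set F : Finset (IntermediateField ℚ ℂ) := S.biUnion
    (fun p => (Finset.univ : Finset (Cl n r p)).biUnion
      (fun cl => (hcount p cl).1.toFinset)) with hF
  have hsub : FS n X ⊆ (F : Set (IntermediateField ℚ ℂ)) := by
    intro K hK
    obtain ⟨p, hp, cl, hcl⟩ := hcover K hK
    rw [Finset.mem_coe, hF, Finset.mem_biUnion]
    refine ⟨p, hp, ?_⟩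
    rw [Finset.mem_biUnion]
    refine ⟨cl, Finset.mem_univ _, ?_⟩
    rw [Set.Finite.mem_toFinset]
    exact hcl
  have hFcard : F.card ≤ S.card * (P ^ (n * (r + 1)) * (d1 * n)) := by
    rw [hF]
    refine Finset.card_biUnion_le_card_mul S _ (P ^ (n * (r + 1)) * (d1 * n)) ?_
    intro p hp
    have h2 := Finset.card_biUnion_le_card_mul (Finset.univ : Finset (Cl n r p))
      (fun cl => (hcount p cl).1.toFinset) (d1 * n) (by
        intro cl _
        have h3 := (hcount p cl).2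
        rw [Set.ncard_eq_toFinset_card _ (hcount p cl).1] at h3
        exact h3)
    refine h2.trans (Nat.mul_le_mul_right _ ?_)
    rw [Finset.card_univ, card_ClU]
    exact Nat.pow_le_pow_left (hSP p hp) _
  refine ⟨F.finite_toSet.subset hsub, ?_⟩
  have := Set.ncard_le_ncard hsub F.finite_toSet
  rw [Set.ncard_coe_finset] at this
  exact this.trans hFcard

end NFU
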