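import Pool.Agent.Lib.NFH.Defs2

/-!
# Number fields of all degrees (MP_44a56e_nt), uniform version: definitions
-/

set_option autoImplicit false

open MvPolynomial Module NumberField NFH

namespace NFU

/-- The quadratic form of a real matrix at an integer vector. -/
noncomputable def qf {n : ℕ} (G : Matrix (Fin n) (Fin n) ℝ) (z : Fin n → ℤ) : ℝ :=
  (fun i => (z i : ℝ)) ⬝ᵥ G.mulVec (fun i => (z i : ℝ))

/-- The sum of the squares of the absolute values of the conjugates. -/
noncomputable def T2 {K : Type} [Field K] [NumberField K] (z : K) : ℝ :=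
  ∑ φ : K →+* ℂ, ‖φ z‖ ^ 2

/-- The condition on the Hilbert functions that makes the fibre bound work: a function with
polynomial growth satisfying the recursive inequality is at most `d1` at `d1`. The data are the
number `r` of variables, the degree `D`, the multiplicity `s`, the exponent `c` and `κ`. -/
def Grw (r D s κ d1 : ℕ) (c : ℝ) : Prop :=
  ∀ h : ℕ → ℕ, (∀ d, h d ≤ (d + 1) ^ r) →
    (∀ d ≤ d1, (h d : ℝ) * ((1 - (D : ℝ) / s / c) * d - (D * (r + 2) + (D : ℝ) / s * κ)) ≤
      ∑ e ∈ Finset.range d, (h e : ℝ)) → h d1 ≤ d1

/-- The degree of the interpolation problem. -/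
def dg (m r k : ℕ) : ℕ := (r + 1) * (m - 1) + m * k

/-- The number of jets. -/
noncomputable def nj (r k : ℕ) : ℕ := (mon (r + 1) k).card

/-- The factor of the size of the tuple. -/
noncomputable def sz (n m r k : ℕ) : ℕ := n * (n * nj r k * dg m r k + n * n)

/-- The exponent of the bound for the product of the two determinants. -/
noncomputable def ex (n m r k : ℕ) : ℕ := (2 + 4 * dg m r k) * (n * nj r k) + n * (2 + 2 * n)

end NFU
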