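import Pool.Agent.Lib.NFU.Defs
import Pool.Agent.Lib.NFU.RealU
import Pool.Agent.Lib.NFH.Expand
import Pool.Agent.Lib.NFH.Index
import Pool.Agent.Lib.NFH.Pigeon
import Pool.Agent.Lib.NFH.Small
import Pool.Agent.Lib.NFH.Stab

/-!
MP_44a56e_nt (uniform), module FibU (about 80 lines): explicit version of `NFH.fibre`.

PROOF: the proof of `NFH.fibre` (Lib/NFH/Fibre.lean, copy it) with `ineq_realU` in place of `ineq_real` and `hgrow` in place of `growth`.
-/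

set_option autoImplicit false

open MvPolynomial Module NumberField NFH

namespace NFU

theorem fibreU (r D s κ d1 : ℕ) (hD : 1 ≤ D) (hs : 1 ≤ s) (c : ℝ) (hc : 0 < c)
    (hgrow : Grw r D s κ d1 c) (ι : Type) [Fintype ι] (K : ι → Type) [∀ i, Field (K i)]
    [∀ i, NumberField (K i)] (x : ∀ i, Fin r → 𝓞 (K i)) (R : ℝ) (p : ℕ) (a : Ideal (PZ r))
    (G : Fin r → PZ r) (hR : 1 ≤ R) (hp : p.Prime) (hpd : (d1 + 1) ^ r ≤ p ^ κ)
    (hpR : R ^ c ≤ (p : ℝ)) (hx : ∀ i (φ : K i →+* ℂ) (j : Fin r), ‖φ (x i j : K i)‖ ≤ R)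
    (hpa : (p : PZ r) ∈ a) (hpF : ∀ i, ∀ F ∈ a, (p : 𝓞 (K i)) ∣ aeval (x i) F)
    (hGd : ∀ j, (G j).totalDegree < D) (hGa : ∀ j, X j ^ D - G j ∈ a ^ s)
    (hinj : Function.Injective fun i => kerI (x i)) : Fintype.card ι ≤ d1 := by
  rcases isEmpty_or_nonempty ι with hι | ⟨⟨i0⟩⟩
  · rw [Fintype.card_eq_zero]; exact Nat.zero_le _
  have hsat : ∀ F : PZ r, ∀ n : ℤ, n ≠ 0 → C n * F ∈ (⨅ i, kerI (x i)) →
      F ∈ (⨅ i, kerI (x i)) := by
    intro F n hn hF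
    rw [Ideal.mem_iInf] at hF ⊢
    intro i
    have h1 : aeval (x i) (C n * F) = 0 := hF i
    rw [map_mul, aeval_C, mul_eq_zero] at h1
    rcases h1 with h1 | h1
    · exfalso
      apply hn
      rw [eq_intCast, Int.cast_eq_zero] at h1
      exact h1
    · exact h1
  have hne : (⨅ i, kerI (x i)) ≠ ⊤ := by
    intro h
    have h1 : (1 : PZ r) ∈ (⨅ i, kerI (x i)) := by rw [h]; trivial
    rw [Ideal.mem_iInf] at h1
    have h2 : aeval (x i0) (1 : PZ r) = 0 := h1 i0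
    rw [map_one] at h2
    exact one_ne_zero h2
  have hexp := expand D s hD a G hGd hGa
  have hH : ∀ d T B : ℕ, (hz (⨅ i, kerI (x i)) d : ℝ) * B * R ^ d < (p : ℝ) ^ T →
      (B + 1) ^ hz (⨅ i, kerI (x i)) d ≤
        p ^ ∑ t ∈ Finset.range T, hz (⨅ i, kerI (x i)) (min d (D * (t / s + 1) + D * r)) := by
    intro d T B hlt
    by_contra hcon
    obtain ⟨hfin, hcard⟩ := card_le D s p hs hp.pos (⨅ i, kerI (x i)) a hpa hsat hexp d T
    obtain ⟨F, hFI, hFa, hFd, hFs, hFc⟩ := pigeon (⨅ i, kerI (x i)) a hsat d T B hfin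
      (lt_of_le_of_lt hcard (not_le.1 hcon))
    apply hFI
    rw [Ideal.mem_iInf]
    intro i
    refine small (x i) R hR (hx i) p hp.pos a (hpF i) d T B F ?_ hFd hFc ?_
    · have hle : a ^ T ⊔ (⨅ i, kerI (x i)) ≤ a ^ T ⊔ kerI (x i) :=
        sup_le_sup_left (iInf_le (fun i => kerI (x i)) i) (a ^ T)
      exact hle hFa
    · refine lt_of_le_of_lt ?_ hlt
      have h1 : (F.support.card : ℝ) ≤ (hz (⨅ i, kerI (x i)) d : ℝ) := by exact_mod_cast hFs
      have h2 : (0 : ℝ) ≤ R ^ d := pow_nonneg (by linarith) _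
      exact mul_le_mul_of_nonneg_right (mul_le_mul_of_nonneg_right h1 (Nat.cast_nonneg _)) h2
  refine stab K x hinj d1 (hgrow (hz (⨅ i, kerI (x i))) (fun d => hz_le _ d) ?_)
  intro d hd
  exact ineq_realU r D s d1 κ hD hs c R hc hR p hp.two_le hpR hpd _ (hz_mono _ hsat)
    (fun d => one_le_hz _ hne hsat d) (fun d => hz_le _ d) hH d hd

end NFU
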