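import Pool.Agent.Lib.MP_44a56e_nt.Defs2

/-!
MP_44a56e_nt (uniform), module Gam (about 60 lines): a bound for Hermite's constant `QTow.gam`.

PROOF. `QTow.gam n = 4/π Γ(n/2+1)^(2/n)`. Positive: `Real.Gamma_pos_of_pos`. `gam_le`: by log-convexity of `Γ` (`Real.convexOn_log_Gamma` or `Real.Gamma_mul_add_mul_le_rpow_Gamma_mul_rpow_Gamma` with `s = 1`, `t = n+1`, weights `1/2`):
`Γ(n/2+1) ≤ Γ(1)^(1/2) Γ(n+1)^(1/2) = (n!)^(1/2) ≤ (n^n)^(1/2)`, so `Γ(n/2+1)^(2/n) ≤ n`, and `4/π ≤ 2`.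
-/

set_option autoImplicit false

namespace NFU

theorem gam_pos (n : ℕ) : 0 < QTow.gam n := by
  unfold QTow.gam
  have h : 0 < Real.Gamma ((n : ℝ) / 2 + 1) := Real.Gamma_pos_of_pos (by positivity)
  have := Real.pi_pos
  positivity

theorem gam_le (n : ℕ) (hn : 1 ≤ n) : QTow.gam n ≤ 2 * n := by
  have hn0 : (0 : ℝ) < n := by exact_mod_cast hn
  have h1 : Real.Gamma ((n : ℝ) / 2 + 1) ≤ ((n : ℝ) ^ n) ^ (1 / 2 : ℝ) := by
    have h2 := Real.Gamma_mul_add_mul_le_rpow_Gamma_mul_rpow_Gamma (s := 1) (t := (n : ℝ) + 1)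
      (a := 1 / 2) (b := 1 / 2) one_pos (by positivity) (by norm_num) (by norm_num) (by norm_num)
    rw [Real.Gamma_one, Real.one_rpow, one_mul, Real.Gamma_nat_eq_factorial] at h2
    have h3 : (1 / 2 : ℝ) * 1 + 1 / 2 * ((n : ℝ) + 1) = (n : ℝ) / 2 + 1 := by ring
    rw [h3] at h2
    refine h2.trans ?_
    refine Real.rpow_le_rpow (by positivity) ?_ (by norm_num)
    exact_mod_cast Nat.factorial_le_pow n
  have h4 : Real.Gamma ((n : ℝ) / 2 + 1) ^ (2 / (n : ℝ)) ≤ n := by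
    have h5 : 0 ≤ Real.Gamma ((n : ℝ) / 2 + 1) := (Real.Gamma_pos_of_pos (by positivity)).le
    refine (Real.rpow_le_rpow h5 h1 (by positivity)).trans (le_of_eq ?_)
    rw [← Real.rpow_natCast, ← Real.rpow_mul hn0.le, ← Real.rpow_mul hn0.le]
    have h6 : (n : ℝ) * (1 / 2) * (2 / (n : ℝ)) = 1 := by
      field_simp
    rw [h6, Real.rpow_one]
  unfold QTow.gam
  have hpi : (4 : ℝ) / Real.pi ≤ 2 := by
    rw [div_le_iff₀ Real.pi_pos]
    linarith [Real.pi_gt_three]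
  have h7 : 0 ≤ Real.Gamma ((n : ℝ) / 2 + 1) ^ (2 / (n : ℝ)) :=
    Real.rpow_nonneg (Real.Gamma_pos_of_pos (by positivity)).le _
  exact mul_le_mul hpi h4 h7 (by norm_num)

end NFU
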