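import Pool.Agent.Lib.NFU.Defs

/-!
MP_44a56e_nt (uniform), module GramT: the Gram matrix of the ring of integers (after Lib/NF44/GramD.lean).
-/

set_option autoImplicit false

open MvPolynomial Module NumberField

namespace NFU

private theorem gram_form (K : Type) [Field K] [NumberField K] (n : ℕ) (u : Fin n → K)
    (c : Fin n → ℝ) (G : Matrix (Fin n) (Fin n) ℝ)
    (hG : ∀ i j, G i j = (∑ φ : K →+* ℂ, φ (u i) * (starRingEnd ℂ) (φ (u j))).re) :
    c ⬝ᵥ G.mulVec c = ∑ φ : K →+* ℂ, ‖∑ i, (c i : ℂ) * φ (u i)‖ ^ 2 := by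
  have h1 : ∀ φ : K →+* ℂ, ‖∑ i, (c i : ℂ) * φ (u i)‖ ^ 2 =
      ∑ i, ∑ j, c i * c j * (φ (u i) * (starRingEnd ℂ) (φ (u j))).re := by
    intro φ
    have h2 : ((‖∑ i, (c i : ℂ) * φ (u i)‖ ^ 2 : ℝ) : ℂ) =
        ∑ i, ∑ j, ((c i * c j : ℝ) : ℂ) * (φ (u i) * (starRingEnd ℂ) (φ (u j))) := by
      push_cast
      rw [← Complex.mul_conj', map_sum, Finset.sum_mul_sum]
      refine Finset.sum_congr rfl fun i _ => Finset.sum_congr rfl fun j _ => ?_
      rw [map_mul, Complex.conj_ofReal]
      ring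
    have h3 := congrArg Complex.re h2
    rw [Complex.ofReal_re] at h3
    rw [h3, Complex.re_sum]
    refine Finset.sum_congr rfl fun i _ => ?_
    rw [Complex.re_sum]
    refine Finset.sum_congr rfl fun j _ => ?_
    rw [Complex.re_ofReal_mul]
  simp only [h1]
  rw [Finset.sum_comm]
  simp only [dotProduct, Matrix.mulVec]
  refine Finset.sum_congr rfl fun i _ => ?_
  rw [Finset.sum_comm, Finset.mul_sum]
  refine Finset.sum_congr rfl fun j _ => ?_
  rw [hG, Complex.re_sum, Finset.sum_mul, Finset.mul_sum]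
  refine Finset.sum_congr rfl fun φ _ => ?_
  ring

theorem gramT2 (K : Type) [Field K] [NumberField K] (n : ℕ) (hn : finrank ℚ K = n)
    (e : Basis (Fin n) ℤ (𝓞 K)) :
    ∃ G : Matrix (Fin n) (Fin n) ℝ, G.PosDef ∧ G.det = |(discr K : ℝ)| ∧
      ∀ c : Fin n → ℤ, qf G c = T2 ((∑ i, c i • e i : 𝓞 K) : K) := by
  classical
  obtain ⟨u, hu⟩ : ∃ u : Fin n → K, ∀ i, u i = ((e i : 𝓞 K) : K) := ⟨_, fun _ => rfl⟩
  -- the embeddings
  have hcard : Fintype.card (K →ₐ[ℚ] ℂ) = n := by
    rw [AlgHom.card, hn]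
  let f : Fin n ≃ (K →ₐ[ℚ] ℂ) := (Fintype.equivFinOfCardEq hcard).symm
  let g : Fin n ≃ (K →+* ℂ) := f.trans (RingHom.equivRatAlgHom (R := K) (S := ℂ)).symm
  have hgf : ∀ j x, g j x = f j x := fun j x => rfl
  let M : Matrix (Fin n) (Fin n) ℂ := Algebra.embeddingsMatrixReindex ℚ ℂ u f
  have hM : ∀ i j, M i j = g j (u i) := fun i j => rfl
  have hdisc : M.det ^ 2 = ((discr K : ℤ) : ℂ) := by
    rw [← Algebra.discr_eq_det_embeddingsMatrixReindex_pow_two ℚ ℂ u f]
    have h1 : Algebra.discr ℚ u = ((discr K : ℤ) : ℚ) := by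
      rw [← discr_eq_discr K e]
      have h2 := Algebra.discr_localizationLocalization ℤ (nonZeroDivisors ℤ) (Rₘ := ℚ) K e
      have h3 : (e.localizationLocalization ℚ (nonZeroDivisors ℤ) K : Fin n → K) = u := by
        funext i
        rw [Basis.localizationLocalization_apply, hu]
      rw [h3] at h2
      rw [h2]
      rfl
    rw [h1]
    simp
  have hdet0 : M.det ≠ 0 := by
    intro h0
    rw [h0] at hdisc
    have h1 : ((discr K : ℤ) : ℂ) = 0 := by rw [← hdisc]; simp
    exact discr_ne_zero K (by exact_mod_cast h1)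
  let G : Matrix (Fin n) (Fin n) ℝ := fun i j =>
    (∑ φ : K →+* ℂ, φ (u i) * (starRingEnd ℂ) (φ (u j))).re
  have hG : ∀ i j, G i j = (∑ φ : K →+* ℂ, φ (u i) * (starRingEnd ℂ) (φ (u j))).re :=
    fun i j => rfl
  have hreal : ∀ i j, ((G i j : ℝ) : ℂ) = ∑ φ : K →+* ℂ, φ (u i) * (starRingEnd ℂ) (φ (u j)) := by
    intro i j
    rw [hG, ← Complex.conj_eq_iff_re, map_sum]
    refine Fintype.sum_equiv (ComplexEmbedding.involutive_conjugate K).toPerm _ _ fun φ => ?_
    simp
  have hGM : G.map (Complex.ofRealHom) = M * M.conjTranspose := by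
    ext i j
    rw [Matrix.map_apply, Matrix.mul_apply]
    have h1 : Complex.ofRealHom (G i j) = ((G i j : ℝ) : ℂ) := rfl
    rw [h1, hreal, ← g.sum_comp]
    refine Finset.sum_congr rfl fun l _ => ?_
    rw [Matrix.conjTranspose_apply, hM, hM]
    rfl
  refine ⟨G, ?_, ?_, ?_⟩
  · refine Matrix.PosDef.of_dotProduct_mulVec_pos ?_ fun x hx => ?_
    · ext i j
      rw [Matrix.conjTranspose_apply]
      have h1 : ((G j i : ℝ) : ℂ) = ((G i j : ℝ) : ℂ) := by
        rw [hreal, ← Complex.conj_ofReal (G i j), hreal, map_sum]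
        refine Finset.sum_congr rfl fun φ _ => ?_
        rw [map_mul, Complex.conj_conj, mul_comm]
      have h2 : G j i = G i j := by exact_mod_cast h1
      simpa using h2
    · have h1 := gram_form K n u x G hG
      have h2 : star x = x := by
        funext i
        simp
      rw [h2, h1]
      refine lt_of_le_of_ne (Finset.sum_nonneg fun φ _ => by positivity) fun h0 => hx ?_
      have h3 : ∀ φ : K →+* ℂ, ∑ i, (x i : ℂ) * φ (u i) = 0 := by
        intro φ
        have h4 := (Finset.sum_eq_zero_iff_of_nonneg (fun φ _ => by positivity)).1 h0.symm φ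
          (Finset.mem_univ φ)
        simpa using h4
      have h5 : Matrix.vecMul (fun i => (x i : ℂ)) M = 0 := by
        funext j
        have h6 := h3 (g j)
        rw [Matrix.vecMul, dotProduct]
        simp only [hM]
        exact h6
      have h7 := Matrix.eq_zero_of_vecMul_eq_zero hdet0 h5
      funext i
      have h8 := congrFun h7 i
      simpa using h8
  · have h1 : ((G.det : ℝ) : ℂ) = ((|(discr K : ℝ)| : ℝ) : ℂ) := by
      have h2 : ((G.det : ℝ) : ℂ) = (G.map Complex.ofRealHom).det := by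
        rw [← RingHom.mapMatrix_apply, ← RingHom.map_det]
        rfl
      rw [h2, hGM, Matrix.det_mul, Matrix.det_conjTranspose]
      have h3 : M.det * star M.det = ((‖M.det‖ ^ 2 : ℝ) : ℂ) := by
        have := Complex.mul_conj' M.det
        push_cast
        exact this
      rw [h3]
      congr 1
      rw [← norm_pow, hdisc, Complex.norm_intCast]
    exact_mod_cast h1
  · intro c
    unfold qf T2
    have h1 := gram_form K n u (fun i => (c i : ℝ)) G hG
    rw [h1]
    refine Finset.sum_congr rfl fun φ _ => ?_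
    have h2 : ((∑ i, c i • e i : 𝓞 K) : K) = ∑ i, (c i : K) * u i := by
      have h3 : ((∑ i, c i • e i : 𝓞 K) : K) = algebraMap (𝓞 K) K (∑ i, c i • e i) := rfl
      rw [h3, map_sum]
      refine Finset.sum_congr rfl fun i _ => ?_
      rw [hu, map_zsmul, zsmul_eq_mul]
    rw [h2, map_sum]
    congr 2
    refine Finset.sum_congr rfl fun i _ => ?_
    simp

end NFU
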