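import Mathlib

/-!
MP_44a56e_nt (uniform), module Greedy (about 120 lines): successive minima.

PROOF of `greedy`. By induction on `k ≤ n` there is `w : Fin k → α` with the three properties (`Q` monotone, `ι ∘ w` independent, the third one with `k` in place of `n`) and in addition: `Q (w i) ≤ Q z` for all `z` with `ι z` not in the span of the `ι (w j)`, `j < i`
(this is the contrapositive of the third property before the span is written out). Step `k < n`: `U` = span of the `ι (w j)` has dimension `k < n`, so `U ≠ ⊤` and by `hspan` there is `z` with `ι z ∉ U`; among these `z` there is one with minimal `Q z`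
(`hfin (Q z)`: a finite nonempty set). Put it at the end (`Fin.snoc`). Monotone: the last but one vector was minimal outside of a smaller span. The explicit coefficients: an element of the span of `ι (w j)`, `j < i`, is `∑ q_j ι (w j)` (`Submodule.mem_span_image_iff_exists_fun`, `Finsupp.mem_span_image_iff_linearCombination` or similar).
-/

set_option autoImplicit false

open Module

namespace NFU

private theorem gr_step {V α : Type*} [AddCommGroup V] [Module ℚ V] [FiniteDimensional ℚ V]
    (n : ℕ) (hn : finrank ℚ V = n) (ι : α → V) (hspan : Submodule.span ℚ (Set.range ι) = ⊤)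
    (Q : α → ℝ) (hfin : ∀ B : ℝ, {z | Q z ≤ B}.Finite) (k : ℕ) (hk : k ≤ n) :
    ∃ w : Fin k → α, LinearIndependent ℚ (fun i => ι (w i)) ∧ (Monotone fun i => Q (w i)) ∧
      ∀ (z : α) (i : Fin k), Q z < Q (w i) →
        ι z ∈ Submodule.span ℚ ((fun j => ι (w j)) '' {j | j < i}) := by
  induction k with
  | zero =>
    refine ⟨fun i => i.elim0, linearIndependent_empty_type, fun i => i.elim0, fun z i => i.elim0⟩
  | succ k ih =>
    obtain ⟨w, hw, hm, hr⟩ := ih (by omega)
    set U := Submodule.span ℚ (Set.range fun j => ι (w j)) with hU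
    have hdim : finrank ℚ U = k := by
      rw [hU, finrank_span_eq_card hw, Fintype.card_fin]
    have hne : ∃ z, ι z ∉ U := by
      by_contra hcon
      push Not at hcon
      have h1 : Submodule.span ℚ (Set.range ι) ≤ U := by
        rw [Submodule.span_le]
        rintro _ ⟨z, rfl⟩
        exact hcon z
      rw [hspan, top_le_iff] at h1
      rw [h1, finrank_top, hn] at hdim
      omega
    obtain ⟨z0, hz0⟩ := hne
    have hfin2 : {z | Q z ≤ Q z0 ∧ ι z ∉ U}.Finite :=
      (hfin (Q z0)).subset fun z hz => hz.1
    obtain ⟨z, ⟨hz1, hz2⟩, hz3⟩ := hfin2.exists_minimalFor Q _ ⟨z0, le_rfl, hz0⟩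
    have hmin : ∀ y, ι y ∉ U → Q z ≤ Q y := by
      intro y hy
      by_contra hlt
      push Not at hlt
      have := hz3 ⟨hlt.le.trans hz1, hy⟩ hlt.le
      linarith
    have himg : ∀ i : Fin k, (fun j => ι (w j)) '' {j | j < i} ⊆ Set.range fun j => ι (w j) :=
      fun i => Set.image_subset_range _ _
    have hwz : ∀ j, Q (w j) ≤ Q z := by
      intro j
      by_contra hlt
      push Not at hlt
      exact hz2 (Submodule.span_mono (himg j) (hr z j hlt))
    refine ⟨Fin.snoc w z, ?_, ?_, ?_⟩
    · have h1 : (fun i => ι ((Fin.snoc w z : Fin (k + 1) → α) i))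
          = Fin.snoc (fun i => ι (w i)) (ι z) := by
        funext i
        refine Fin.lastCases ?_ (fun j => ?_) i
        · simp
        · simp
      rw [h1, linearIndependent_finSnoc]
      exact ⟨hw, hz2⟩
    · intro i j hij
      revert hij
      refine Fin.lastCases ?_ (fun j => ?_) j
      · intro _
        refine Fin.lastCases ?_ (fun i => ?_) i
        · simp
        · simpa using hwz i
      · refine Fin.lastCases ?_ (fun i => ?_) i
        · intro hij
          exact absurd hij (not_le.2 (Fin.castSucc_lt_last j))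
        · intro hij
          simpa using hm (Fin.castSucc_le_castSucc_iff.1 hij)
    · intro y i
      refine Fin.lastCases ?_ (fun i => ?_) i
      · intro hy
        rw [Fin.snoc_last] at hy
        have h1 : ι y ∈ U := by
          by_contra hcon
          exact absurd (hmin y hcon) (not_le.2 hy)
        refine Submodule.span_mono ?_ h1
        rintro _ ⟨j, rfl⟩
        exact ⟨j.castSucc, Fin.castSucc_lt_last j, by simp⟩
      · intro hy
        rw [Fin.snoc_castSucc] at hy
        refine Submodule.span_mono ?_ (hr y i hy)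
        rintro _ ⟨j, hj, rfl⟩
        exact ⟨j.castSucc, Fin.castSucc_lt_castSucc_iff.2 hj, by simp⟩

theorem greedy {V α : Type*} [AddCommGroup V] [Module ℚ V] [FiniteDimensional ℚ V] (n : ℕ)
    (hn : finrank ℚ V = n) (ι : α → V) (hspan : Submodule.span ℚ (Set.range ι) = ⊤) (Q : α → ℝ)
    (hfin : ∀ B : ℝ, {z | Q z ≤ B}.Finite) :
    ∃ w : Fin n → α, LinearIndependent ℚ (fun i => ι (w i)) ∧ (Monotone fun i => Q (w i)) ∧
      ∀ (z : α) (i : Fin n), Q z < Q (w i) →
        ∃ q : Fin n → ℚ, (∀ j, i ≤ j → q j = 0) ∧ ι z = ∑ j, q j • ι (w j) := by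
  obtain ⟨w, hw, hm, hr⟩ := gr_step n hn ι hspan Q hfin n le_rfl
  refine ⟨w, hw, hm, fun z i hz => ?_⟩
  have h1 := hr z i hz
  rw [Finsupp.mem_span_image_iff_linearCombination] at h1
  obtain ⟨l, hl, hl2⟩ := h1
  refine ⟨fun j => l j, fun j hij => ?_, ?_⟩
  · by_contra hne
    have h2 : j ∈ l.support := Finsupp.mem_support_iff.2 hne
    have h3 := (Finsupp.mem_supported ℚ l).1 hl h2
    exact absurd h3 (not_lt.2 hij)
  · rw [← hl2, Finsupp.linearCombination_apply, Finsupp.sum_fintype _ _ (fun i => by simp)]

end NFU
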