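import Mathlib

/-!
MP_44a56e_nt (uniform), module GrowU (about 130 lines): explicit version of `NFH.growth`.

PROOF. `d1 = Z^E`, `Z = 2 d0^(r+1)`, `E ≥ 1` (from `hE`), so `d0 ≤ Z ≤ d1`. `a = 1/(1/2+δ) = 2/(1+2δ)`, `1 ≤ a ≤ 2` (`δ ≤ 1/2`). For `d0 ≤ d ≤ d1`: `(1-θ) d - A ≥ (1/2+2δ) d - δ d0 ≥ (1/2+δ) d`, so `h d * d ≤ a * H d`, `H d = ∑_{e<d} h e`, and
`H (d+1) = H d + h d ≤ H d (1 + a/d) ≤ H d (1+1/d)^a` (Bernoulli `one_add_mul_self_le_rpow_one_add`), so `H d ≤ H d0 (d/d0)^a ≤ d0^(r+1) d^a` (`H d0 ≤ ∑_{e<d0} (e+1)^r ≤ d0 * d0^r`). `h d1 ≤ a H d1 / d1 ≤ 2 d0^(r+1) d1^(a-1) = Z d1^(a-1) ≤ d1` because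
`d1^(2-a) = Z^(E (2-a)) ≥ Z`: `E (2-a) = E * 4δ/(1+2δ) ≥ 1` (`hE`). Compare Lib/NFH/Growth.lean.
-/

set_option autoImplicit false

namespace NFU

theorem growthU (δ : ℝ) (hδ : 0 < δ) (hδ2 : δ ≤ 1 / 2) (E : ℕ) (hE : 1 + 2 * δ ≤ 4 * δ * E)
    (r d0 : ℕ) (hd0 : 1 ≤ d0) (A θ : ℝ) (hθ : θ ≤ 1 / 2 - 2 * δ) (hA : A ≤ δ * d0)
    (h : ℕ → ℕ) (hub : ∀ d, h d ≤ (d + 1) ^ r)
    (hrec : ∀ d ≤ (2 * d0 ^ (r + 1)) ^ E,
      (h d : ℝ) * ((1 - θ) * d - A) ≤ ∑ e ∈ Finset.range d, (h e : ℝ)) :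
    h ((2 * d0 ^ (r + 1)) ^ E) ≤ (2 * d0 ^ (r + 1)) ^ E := by
  obtain ⟨a, ha⟩ : ∃ a : ℝ, a = 2 / (1 + 2 * δ) := ⟨_, rfl⟩
  have hp : 0 < 1 + 2 * δ := by linarith
  have hap : a * (1 + 2 * δ) = 2 := by rw [ha]; field_simp
  have ha1 : 1 ≤ a := by
    rw [ha, le_div_iff₀ hp]; linarith
  have ha2 : a ≤ 2 := by
    rw [ha, div_le_iff₀ hp]; linarith
  have hat : a * (1 / 2 + δ) = 1 := by linarith
  have hE1 : 1 ≤ E := by
    by_contra hcon
    have h0 : E = 0 := by omega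
    rw [h0] at hE
    simp at hE
    linarith
  obtain ⟨Z, hZ⟩ : ∃ Z : ℕ, Z = 2 * d0 ^ (r + 1) := ⟨_, rfl⟩
  obtain ⟨d1, hd1⟩ : ∃ d1 : ℕ, d1 = Z ^ E := ⟨_, rfl⟩
  have hpw : 1 ≤ d0 ^ (r + 1) := Nat.one_le_pow _ _ hd0
  have hZ1 : 1 ≤ Z := by omega
  have hd0Z : d0 ≤ Z := by
    have h1 : d0 ≤ d0 ^ (r + 1) := Nat.le_self_pow (by omega) d0
    omega
  have hZd1 : Z ≤ d1 := by
    rw [hd1]
    exact Nat.le_self_pow (by omega) Z
  rw [← hZ, ← hd1] at hrec ⊢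
  have hd1b : d0 ≤ d1 := hd0Z.trans hZd1
  have hd01 : (1 : ℝ) ≤ d0 := by exact_mod_cast hd0
  obtain ⟨C, hC⟩ : ∃ C : ℝ, C = (d0 : ℝ) ^ (r + 1) := ⟨_, rfl⟩
  have hC0 : 0 < C := by rw [hC]; positivity
  have hZC : (Z : ℝ) = 2 * C := by rw [hZ, hC]; push_cast; ring
  -- the key inequality
  have hkey : ∀ d, d0 ≤ d → d ≤ d1 → (h d : ℝ) * d ≤ a * ∑ e ∈ Finset.range d, (h e : ℝ) := by
    intro d hd hd'
    have h1 := hrec d hd'
    have hdd : (d0 : ℝ) ≤ d := by exact_mod_cast hd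
    have hh : (0 : ℝ) ≤ h d := Nat.cast_nonneg _
    have hdn : (0 : ℝ) ≤ d := Nat.cast_nonneg _
    have h2 : (1 / 2 + δ) * d ≤ (1 - θ) * d - A := by
      have e1 : δ * d0 ≤ δ * d := mul_le_mul_of_nonneg_left hdd hδ.le
      have e2 : (1 / 2 + 2 * δ) * d ≤ (1 - θ) * d := mul_le_mul_of_nonneg_right (by linarith) hdn
      linarith
    have h3 : (h d : ℝ) * ((1 / 2 + δ) * d) ≤ ∑ e ∈ Finset.range d, (h e : ℝ) :=
      (mul_le_mul_of_nonneg_left h2 hh).trans h1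
    calc (h d : ℝ) * d = a * ((h d : ℝ) * ((1 / 2 + δ) * d)) := by
          have : a * ((h d : ℝ) * ((1 / 2 + δ) * d)) = (a * (1 / 2 + δ)) * ((h d : ℝ) * d) := by
            ring
          rw [this, hat, one_mul]
      _ ≤ _ := mul_le_mul_of_nonneg_left h3 (by linarith)
  -- induction
  have hind : ∀ d, d0 ≤ d → d ≤ d1 → ∑ e ∈ Finset.range d, (h e : ℝ) ≤ C * (d : ℝ) ^ a := by
    intro d hd
    induction d, hd using Nat.le_induction with
    | base =>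
      intro _
      have h1 : ∑ e ∈ Finset.range d0, (h e : ℝ) ≤ ∑ e ∈ Finset.range d0, (d0 : ℝ) ^ r := by
        refine Finset.sum_le_sum fun e he => ?_
        have h2 : ((h e : ℕ) : ℝ) ≤ (((e + 1) ^ r : ℕ) : ℝ) := by exact_mod_cast hub e
        refine h2.trans ?_
        push_cast
        have h3 : (e : ℝ) + 1 ≤ d0 := by exact_mod_cast (Finset.mem_range.1 he)
        have h4 : (0 : ℝ) ≤ e := Nat.cast_nonneg _
        exact pow_le_pow_left₀ (by linarith) h3 r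
      rw [Finset.sum_const, Finset.card_range, nsmul_eq_mul, ← pow_succ', ← hC] at h1
      have h5 : (1 : ℝ) ≤ (d0 : ℝ) ^ a := Real.one_le_rpow hd01 (by linarith)
      nlinarith
    | succ d hd ih =>
      intro hd'
      have ih' := ih (by omega)
      have hk := hkey d hd (by omega)
      have hdd : (d0 : ℝ) ≤ d := by exact_mod_cast hd
      have hd1' : (1 : ℝ) ≤ d := hd01.trans hdd
      have hdpos : (0 : ℝ) < d := by linarith
      rw [Finset.sum_range_succ]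
      have hB : 1 + a * (1 / (d : ℝ)) ≤ (1 + 1 / (d : ℝ)) ^ a :=
        one_add_mul_self_le_rpow_one_add (by
          have : (0 : ℝ) ≤ 1 / (d : ℝ) := by positivity
          linarith) ha1
      have hS : (0 : ℝ) ≤ ∑ e ∈ Finset.range d, (h e : ℝ) :=
        Finset.sum_nonneg fun _ _ => Nat.cast_nonneg _
      have h1 : (h d : ℝ) ≤ (∑ e ∈ Finset.range d, (h e : ℝ)) * (a * (1 / (d : ℝ))) := by
        have : (∑ e ∈ Finset.range d, (h e : ℝ)) * (a * (1 / (d : ℝ)))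
            = (a * ∑ e ∈ Finset.range d, (h e : ℝ)) / d := by ring
        rw [this, le_div_iff₀ hdpos]
        exact hk
      calc (∑ e ∈ Finset.range d, (h e : ℝ)) + h d
          ≤ (∑ e ∈ Finset.range d, (h e : ℝ)) * (1 + a * (1 / (d : ℝ))) := by
            rw [mul_add, mul_one]; linarith
        _ ≤ (C * (d : ℝ) ^ a) * (1 + 1 / (d : ℝ)) ^ a := by
            apply mul_le_mul ih' hB
            · have : (0 : ℝ) ≤ a * (1 / (d : ℝ)) := by positivity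
              linarith
            · positivity
        _ = C * ((d + 1 : ℕ) : ℝ) ^ a := by
            rw [mul_assoc, ← Real.mul_rpow hdpos.le (by positivity)]
            congr 2
            push_cast
            field_simp
  have hd1pos : (1 : ℝ) ≤ d1 := by
    have : (d0 : ℝ) ≤ d1 := by exact_mod_cast hd1b
    linarith
  have hpos : (0 : ℝ) < d1 := by linarith
  have hd1a : a * C ≤ (d1 : ℝ) ^ (2 - a) := by
    have e1 : a * C ≤ (Z : ℝ) := by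
      rw [hZC]
      exact mul_le_mul_of_nonneg_right ha2 hC0.le
    have hZ1' : (1 : ℝ) ≤ Z := by exact_mod_cast hZ1
    have e2 : (d1 : ℝ) ^ (2 - a) = (Z : ℝ) ^ ((E : ℝ) * (2 - a)) := by
      rw [hd1]
      push_cast
      rw [← Real.rpow_natCast, ← Real.rpow_mul (by linarith)]
    have e3 : 1 ≤ (E : ℝ) * (2 - a) := by
      have e4 : (2 - a) * (1 + 2 * δ) = 4 * δ := by linarith
      have e5 : 1 * (1 + 2 * δ) ≤ (E : ℝ) * (2 - a) * (1 + 2 * δ) := by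
        rw [mul_assoc, e4]
        linarith
      exact le_of_mul_le_mul_right e5 hp
    rw [e2]
    refine e1.trans ?_
    calc (Z : ℝ) = (Z : ℝ) ^ (1 : ℝ) := (Real.rpow_one _).symm
      _ ≤ _ := Real.rpow_le_rpow_of_exponent_le hZ1' e3
  have hf1 := hkey d1 hd1b le_rfl
  have hf2 := hind d1 hd1b le_rfl
  have hf3 : (h d1 : ℝ) * d1 ≤ (d1 : ℝ) * d1 := by
    calc (h d1 : ℝ) * d1 ≤ a * (C * (d1 : ℝ) ^ a) :=
          hf1.trans (mul_le_mul_of_nonneg_left hf2 (by linarith))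
      _ = (a * C) * (d1 : ℝ) ^ a := by ring
      _ ≤ (d1 : ℝ) ^ (2 - a) * (d1 : ℝ) ^ a :=
          mul_le_mul_of_nonneg_right hd1a (by positivity)
      _ = (d1 : ℝ) * d1 := by
          rw [← Real.rpow_add hpos]
          have : 2 - a + a = ((2 : ℕ) : ℝ) := by push_cast; ring
          rw [this, Real.rpow_natCast]
          ring
  have hf4 : (h d1 : ℝ) ≤ d1 := le_of_mul_le_mul_right hf3 hpos
  exact_mod_cast hf4

end NFU
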