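import Pool.Agent.Lib.NFU.Defs
import Pool.Agent.Lib.NFU.GrowU

/-!
MP_44a56e_nt (uniform), module Par (about 150 lines): the choice of the parameters.

PROOF. `c = 2m+ε`, `δ = (ε/8)/(2m+ε)`, `0 < δ ≤ 1/8`. `t ≥ 1` with `4 m ≤ ε t`; `E ≥ 1` with `1 + 2δ ≤ 4 δ E`; `M ≥ 4` with `3 m (t+1) + 6 m E ≤ δ M`. Let `ρ = r+1`, `k = t ρ - 1` (`tρ ≥ 1`), `s = k+1 = tρ`, `D = dg m r k + 1 = ρ(m-1) + m(tρ-1) + 1 ≤ m (t+1) ρ`, `D/s ≤ m + m/t ≤ m + ε/4` and `≤ 2m`,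
`θ = D/s/c ≤ (m+ε/4)/(2m+ε) = 1/2 - 2δ`. `κ = 3 E ρ^2`, `A = D (ρ+2) + D/s κ ≤ 3 m (t+1) ρ^2 + 6 m E ρ^2 ≤ δ M ρ^2 = δ d0` (`ρ + 2 ≤ 3ρ`). `Grw`: `growthU` with `r := ρ`, `d0 = M ρ^2`, `d1 = (2 d0^(ρ+1))^E`.
The second statement: `d1 + 1 ≤ 2 d1 ≤ (4 d0^(ρ+1))^E ≤ (d0^(ρ+2))^E` (`d0 ≥ 4`, `E ≥ 1`), so `(d1+1)^ρ ≤ d0^(E ρ (ρ+2)) ≤ d0^(3 E ρ^2) ≤ p^κ`.
-/

set_option autoImplicit false

namespace NFU

theorem par_nat (ρ E d0 p : ℕ) (hρ : 1 ≤ ρ) (hE : 1 ≤ E) (hd0 : 4 ≤ d0) (hp : d0 ≤ p) :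
    ((2 * d0 ^ (ρ + 1)) ^ E + 1) ^ ρ ≤ p ^ (3 * E * ρ ^ 2) := by
  have hd1 : 1 ≤ d0 := by omega
  have h1 : 1 ≤ (2 * d0 ^ (ρ + 1)) ^ E := by
    apply Nat.one_le_pow
    positivity
  have h2 : (2 * d0 ^ (ρ + 1)) ^ E + 1 ≤ (d0 ^ (ρ + 2)) ^ E := by
    calc (2 * d0 ^ (ρ + 1)) ^ E + 1 ≤ 2 ^ 1 * (2 * d0 ^ (ρ + 1)) ^ E := by omega
      _ ≤ 2 ^ E * (2 * d0 ^ (ρ + 1)) ^ E :=
          Nat.mul_le_mul_right _ (Nat.pow_le_pow_right (by norm_num) hE)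
      _ = (4 * d0 ^ (ρ + 1)) ^ E := by rw [← mul_pow]; congr 1; ring
      _ ≤ (d0 ^ (ρ + 2)) ^ E := by
          apply Nat.pow_le_pow_left
          calc 4 * d0 ^ (ρ + 1) ≤ d0 * d0 ^ (ρ + 1) := Nat.mul_le_mul_right _ hd0
            _ = d0 ^ (ρ + 2) := by ring
  calc ((2 * d0 ^ (ρ + 1)) ^ E + 1) ^ ρ ≤ ((d0 ^ (ρ + 2)) ^ E) ^ ρ := Nat.pow_le_pow_left h2 _
    _ = d0 ^ ((ρ + 2) * E * ρ) := by rw [← pow_mul, ← pow_mul, mul_assoc]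
    _ ≤ d0 ^ (3 * E * ρ ^ 2) := by
        apply Nat.pow_le_pow_right (by omega)
        have h3 : ρ + 2 ≤ 3 * ρ := by omega
        calc (ρ + 2) * E * ρ ≤ (3 * ρ) * E * ρ :=
              Nat.mul_le_mul_right _ (Nat.mul_le_mul_right _ h3)
          _ = 3 * E * ρ ^ 2 := by ring
    _ ≤ p ^ (3 * E * ρ ^ 2) := Nat.pow_le_pow_left hp _

theorem par (m : ℕ) (hm : 2 ≤ m) (ε : ℝ) (hε : 0 < ε) : ∃ t E M : ℕ, 1 ≤ t ∧ 1 ≤ E ∧ 4 ≤ M ∧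
    ∀ r : ℕ, Grw (r + 1) (dg m r (t * (r + 1) - 1) + 1) (t * (r + 1) - 1 + 1)
        (3 * E * (r + 1) ^ 2) ((2 * (M * (r + 1) ^ 2) ^ (r + 1 + 1)) ^ E) (2 * m + ε) ∧
      ∀ p : ℕ, M * (r + 1) ^ 2 ≤ p →
        ((2 * (M * (r + 1) ^ 2) ^ (r + 1 + 1)) ^ E + 1) ^ (r + 1) ≤ p ^ (3 * E * (r + 1) ^ 2) := by
  have hmR : (2 : ℝ) ≤ m := by exact_mod_cast hm
  have hc : (0 : ℝ) < 2 * m + ε := by positivity
  set δ : ℝ := (ε / 8) / (2 * m + ε) with hδdef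
  have hδ : 0 < δ := by positivity
  have hδ8 : δ ≤ 1 / 8 := by
    rw [hδdef, div_le_iff₀ hc]
    linarith
  -- the choice of `t`
  obtain ⟨t, ht1, ht⟩ : ∃ t : ℕ, 1 ≤ t ∧ 4 * (m : ℝ) ≤ ε * t := by
    refine ⟨⌈4 * (m : ℝ) / ε⌉₊ + 1, by omega, ?_⟩
    have h := Nat.le_ceil (4 * (m : ℝ) / ε)
    rw [div_le_iff₀ hε] at h
    push_cast
    nlinarith
  obtain ⟨E, hE1, hE⟩ : ∃ E : ℕ, 1 ≤ E ∧ 1 + 2 * δ ≤ 4 * δ * E := by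
    refine ⟨⌈(1 + 2 * δ) / (4 * δ)⌉₊ + 1, by omega, ?_⟩
    have h := Nat.le_ceil ((1 + 2 * δ) / (4 * δ))
    rw [div_le_iff₀ (by positivity)] at h
    push_cast
    nlinarith
  obtain ⟨M, hM4, hM⟩ : ∃ M : ℕ, 4 ≤ M ∧ 3 * (m : ℝ) * (t + 1) + 6 * m * E ≤ δ * M := by
    refine ⟨⌈(3 * (m : ℝ) * (t + 1) + 6 * m * E) / δ⌉₊ + 4, by omega, ?_⟩
    have h := Nat.le_ceil ((3 * (m : ℝ) * (t + 1) + 6 * m * E) / δ)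
    rw [div_le_iff₀ hδ] at h
    push_cast
    nlinarith
  refine ⟨t, E, M, ht1, hE1, hM4, fun r => ⟨?_, fun p hp => ?_⟩⟩
  · intro h hub hrec
    have ht1R : (1 : ℝ) ≤ t := by exact_mod_cast ht1
    have hE1R : (1 : ℝ) ≤ E := by exact_mod_cast hE1
    set ρ : ℕ := r + 1 with hρdef
    have hρ1 : 1 ≤ ρ := by omega
    have hρ1R : (1 : ℝ) ≤ ρ := by exact_mod_cast hρ1
    have htρ : 1 ≤ t * ρ := Nat.mul_pos ht1 hρ1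
    have hs : ((t * ρ - 1 + 1 : ℕ) : ℝ) = t * ρ := by
      rw [Nat.sub_add_cancel htρ]; push_cast; ring
    have hD : ((dg m r (t * ρ - 1) + 1 : ℕ) : ℝ) = ρ * (m - 1) + m * (t * ρ - 1) + 1 := by
      unfold dg
      rw [← hρdef]
      push_cast [Nat.cast_sub (show 1 ≤ m by omega), Nat.cast_sub htρ]
      ring
    set D : ℕ := dg m r (t * ρ - 1) + 1 with hDdef
    have hspos : (0 : ℝ) < t * ρ := by positivity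
    have hDle : (D : ℝ) ≤ m * (t + 1) * ρ := by
      rw [hD]; nlinarith
    have hDs1 : (D : ℝ) / (t * ρ) ≤ m + ε / 4 := by
      rw [div_le_iff₀ hspos]
      nlinarith
    have hDs2 : (D : ℝ) / (t * ρ) ≤ 2 * m := by
      rw [div_le_iff₀ hspos]
      have : (m : ℝ) * ρ ≤ m * ρ * t := le_mul_of_one_le_right (by positivity) ht1R
      nlinarith
    have hθ : (D : ℝ) / ((t * ρ - 1 + 1 : ℕ) : ℝ) / (2 * m + ε) ≤ 1 / 2 - 2 * δ := by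
      rw [hs, div_le_iff₀ hc]
      have h2 : (1 / 2 - 2 * δ) * (2 * m + ε) = m + ε / 4 := by
        rw [hδdef]; field_simp; ring
      rw [h2]; exact hDs1
    have hA : ((D : ℝ) * ((ρ : ℝ) + 2) +
        (D : ℝ) / ((t * ρ - 1 + 1 : ℕ) : ℝ) * ((3 * E * ρ ^ 2 : ℕ) : ℝ)) ≤
        δ * ((M * ρ ^ 2 : ℕ) : ℝ) := by
      rw [hs]
      push_cast
      have hD0 : (0 : ℝ) ≤ D := Nat.cast_nonneg _
      have e1 : (D : ℝ) * ((ρ : ℝ) + 2) ≤ (m * (t + 1) * ρ) * (3 * ρ) :=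
        mul_le_mul hDle (by linarith) (by positivity) (by positivity)
      have e2 : (D : ℝ) / (t * ρ) * (3 * E * (ρ : ℝ) ^ 2) ≤ (2 * m) * (3 * E * (ρ : ℝ) ^ 2) :=
        mul_le_mul_of_nonneg_right hDs2 (by positivity)
      have e3 : (3 * (m : ℝ) * (t + 1) + 6 * m * E) * (ρ : ℝ) ^ 2 ≤ (δ * M) * (ρ : ℝ) ^ 2 :=
        mul_le_mul_of_nonneg_right hM (by positivity)
      nlinarith
    have hd0 : 1 ≤ M * ρ ^ 2 := Nat.mul_pos (by omega) (by positivity)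
    exact growthU δ hδ (by linarith) E hE ρ (M * ρ ^ 2) hd0 _ _ hθ hA h hub hrec
  · have hd0 : 4 ≤ M * (r + 1) ^ 2 := by
      calc 4 ≤ M := hM4
        _ = M * 1 := (mul_one _).symm
        _ ≤ M * (r + 1) ^ 2 := Nat.mul_le_mul_left _ (Nat.one_le_pow _ _ (by omega))
    exact par_nat (r + 1) E (M * (r + 1) ^ 2) p (by omega) hE1 hd0 hp

end NFU
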