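import Pool.Agent.Lib.NFU.Core
import Pool.Agent.Lib.NFU.Par
import Pool.Agent.Lib.NFU.Siz

/-!
MP_44a56e_nt (uniform), module MainU (about 200 lines): the uniform theorem.

PROOF of `mainU`. `t, E, M` from `par m ε`, `a` from `siz`, `C1` from `cheb`, `c = 2m+ε ≥ 4`. Let `n ≥ 2`, `X ≥ 1`, `r + 1 = clog m n` (`Nat.clog_pos`), `k = t(r+1)-1`, `κ, d1` as in `par`. `R = n^a X^(1/n) ≥ n^a ≥ 2`. `hRX`, `hsz` from `siz`. `S` from `cheb` with `k := n^a`, `Y = R^c`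
(`(n^a+2)^2 ≤ (2 n^a)^2 ≤ n^(2+2a) ≤ n^(4a) ≤ R^4 ≤ R^c`). `p ≥ R^c ≥ R ≥ n^a ≥ M (r+1)^2`: `hSκ`. `hSe`: `ex < n^a = card S`, `R^c ≥ R > 1`. `P = ⌊C1 R^c⌋₊`. `core` (`n ≤ m^(clog m n)`, `Nat.le_pow_clog`): `ncard ≤ n^a (C1 R^c)^(n(r+1)) d1 n ≤ n^a C1^(n(r+1)) (n^a)^(c n (r+1)) X^(c (r+1)) n^(a (r+1)) n`
`≤ n^(C' n (r+1)) X^(c (r+1))`, `C' = C1 + 2a + ac + 1` (`C1 ≤ n^(C1)`). `r + 1 = clog m n ≤ clog 2 n ≤ log n/log 2 + 1 ≤ 3 log n` (`n ≥ 2`), so the first factor is `≤ n^(3 C' n log n)`.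
-/

set_option autoImplicit false

open Module NumberField NFH

namespace NFU

private theorem clog_le3 (m n : ℕ) (hm : 2 ≤ m) (hn : 2 ≤ n) :
    (Nat.clog m n : ℝ) ≤ 3 * Real.log n := by
  have hpos : 0 < Nat.clog m n := Nat.clog_pos (by omega) (by omega)
  have h1 : m ^ (Nat.clog m n - 1) < n := Nat.pow_pred_clog_lt_self (by omega) (by omega)
  have hn0 : (0 : ℝ) < n := by positivity
  have hl2 : (0.6931471803 : ℝ) < Real.log 2 := Real.log_two_gt_d9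
  have h2 : ((Nat.clog m n - 1 : ℕ) : ℝ) * Real.log m < Real.log n := by
    rw [← Real.log_pow]
    have hm0 : (0 : ℝ) < (m : ℝ) := by positivity
    refine Real.log_lt_log (by positivity) ?_
    exact_mod_cast h1
  have h3 : Real.log 2 ≤ Real.log m := Real.log_le_log (by norm_num) (by exact_mod_cast hm)
  have h4 : Real.log 2 ≤ Real.log n := Real.log_le_log (by norm_num) (by exact_mod_cast hn)
  have h5 : ((Nat.clog m n - 1 : ℕ) : ℝ) = (Nat.clog m n : ℝ) - 1 := by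
    rw [Nat.cast_sub hpos, Nat.cast_one]
  have h6 : (0 : ℝ) ≤ ((Nat.clog m n - 1 : ℕ) : ℝ) := Nat.cast_nonneg _
  rw [h5] at h2 h6
  have h7 : ((Nat.clog m n : ℝ) - 1) * Real.log 2 ≤ Real.log n :=
    (mul_le_mul_of_nonneg_left h3 h6).trans h2.le
  have h8 : (Nat.clog m n : ℝ) * Real.log 2 ≤ 2 * Real.log n := by linarith
  by_contra hcon
  push Not at hcon
  have h9 : 3 * Real.log n * Real.log 2 < (Nat.clog m n : ℝ) * Real.log 2 :=
    mul_lt_mul_of_pos_right hcon (by linarith)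
  nlinarith

theorem mainU (m : ℕ) (hm : 2 ≤ m) (ε : ℝ) (hε : 0 < ε) : ∃ C : ℝ, 0 < C ∧
    ∀ n : ℕ, 2 ≤ n → ∀ X : ℝ, 1 ≤ X → (FS n X).Finite ∧
      ((FS n X).ncard : ℝ) ≤
        (n : ℝ) ^ (C * n * Real.log n) * X ^ ((2 * m + ε) * (Nat.clog m n : ℝ)) := by
  obtain ⟨t, E, M, ht, hE, hM, hpar⟩ := par m hm ε hε
  obtain ⟨a, ha, hsiz⟩ := siz m hm t E M ht
  obtain ⟨C1, hC1, hcheb⟩ := cheb
  have hm2 : (2 : ℝ) ≤ m := by exact_mod_cast hm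
  obtain ⟨c, hc⟩ : ∃ c : ℝ, c = 2 * m + ε := ⟨_, rfl⟩
  rw [← hc] at hpar ⊢
  have hc4 : 4 ≤ c := by linarith
  refine ⟨3 * ((C1 : ℝ) + 2 * a + a * c + 1), by positivity, ?_⟩
  intro n hn X hX
  have hcl := clog_le3 m n hm hn
  obtain ⟨r, hr⟩ : ∃ r, r + 1 = Nat.clog m n := by
    have hpos : 0 < Nat.clog m n := Nat.clog_pos (by omega) (by omega)
    exact ⟨Nat.clog m n - 1, by omega⟩
  obtain ⟨h1, h2, h3, h4, h5⟩ := hsiz n r hn hr
  obtain ⟨hg, hk⟩ := hpar r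
  obtain ⟨k, hkk⟩ : ∃ k, k = t * (r + 1) - 1 := ⟨_, rfl⟩
  obtain ⟨κ, hκ⟩ : ∃ κ, κ = 3 * E * (r + 1) ^ 2 := ⟨_, rfl⟩
  obtain ⟨d1, hd1⟩ : ∃ d1, d1 = (2 * (M * (r + 1) ^ 2) ^ (r + 1 + 1)) ^ E := ⟨_, rfl⟩
  rw [← hkk] at h2 h3 h4 hg
  rw [← hd1] at h5 hk hg
  rw [← hκ] at hk hg
  have hn2 : (2 : ℝ) ≤ n := by exact_mod_cast hn
  have hn0 : (0 : ℝ) < n := by linarith
  have hn1 : (1 : ℝ) ≤ n := by linarith
  have hX0 : (0 : ℝ) < X := by linarith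
  have hX1 : 1 ≤ X ^ ((1 : ℝ) / n) := Real.one_le_rpow hX (by positivity)
  have hna1 : (n : ℝ) ≤ (n : ℝ) ^ a := le_self_pow₀ hn1 (by omega)
  obtain ⟨R, hR⟩ : ∃ R : ℝ, R = (n : ℝ) ^ a * X ^ ((1 : ℝ) / n) := ⟨_, rfl⟩
  have hnaR : (n : ℝ) ^ a ≤ R := by
    rw [hR]
    exact le_mul_of_one_le_right (by positivity) hX1
  have hR2 : 2 ≤ R := by linarith
  have hR1 : 1 ≤ R := by linarith
  have hR0 : 0 < R := by linarith
  have hRc : R ≤ R ^ c := by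
    conv_lhs => rw [← Real.rpow_one R]
    exact Real.rpow_le_rpow_of_exponent_le hR1 (by linarith)
  have hRX : (sz n m r k : ℝ) * (2 * n * X ^ ((1 : ℝ) / n)) ≤ R := by
    have h6 : (sz n m r k : ℝ) * (2 * n) ≤ (n : ℝ) ^ a := by exact_mod_cast h2
    calc (sz n m r k : ℝ) * (2 * n * X ^ ((1 : ℝ) / n))
        = ((sz n m r k : ℝ) * (2 * n)) * X ^ ((1 : ℝ) / n) := by ring
      _ ≤ (n : ℝ) ^ a * X ^ ((1 : ℝ) / n) := mul_le_mul_of_nonneg_right h6 (by linarith)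
      _ = R := hR.symm
  have hsz : ((n * nj r k : ℕ) : ℝ) ≤ R := by
    have h6 : ((n * nj r k : ℕ) : ℝ) ≤ (n : ℝ) ^ a := by exact_mod_cast h3
    linarith
  have hY : (((n ^ a : ℕ) : ℝ) + 2) ^ 2 ≤ R ^ c := by
    have h6 : ((n ^ a : ℕ) : ℝ) + 2 ≤ R ^ 2 := by
      push_cast
      nlinarith
    calc (((n ^ a : ℕ) : ℝ) + 2) ^ 2 ≤ (R ^ 2) ^ 2 := pow_le_pow_left₀ (by positivity) h6 2
      _ = R ^ (4 : ℝ) := by
        rw [← pow_mul]
        have h9 : R ^ (4 : ℝ) = R ^ (2 * 2) := by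
          rw [show (4 : ℝ) = ((4 : ℕ) : ℝ) by norm_num, Real.rpow_natCast]
        exact h9.symm
      _ ≤ R ^ c := Real.rpow_le_rpow_of_exponent_le hR1 hc4
  obtain ⟨S, hScard, hS⟩ := hcheb (n ^ a) (R ^ c) hY
  have hSp : ∀ p ∈ S, R ≤ (p : ℝ) := fun p hp => hRc.trans (hS p hp).2.1
  obtain ⟨hfin, hcard⟩ := core n m r k κ d1 c (by omega) (by omega)
    (by rw [hr]; exact Nat.le_pow_clog (by omega) n) (by linarith) hg X R hX hR2 hRX hsz S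
    (fun p hp => (hS p hp).1) (fun p hp => (hS p hp).2.1)
    (fun p hp => hk p (by
      have h6 : ((M * (r + 1) ^ 2 : ℕ) : ℝ) ≤ (n : ℝ) ^ a := by exact_mod_cast h1
      have h7 := hSp p hp
      have h8 : ((M * (r + 1) ^ 2 : ℕ) : ℝ) ≤ (p : ℝ) := by linarith
      exact_mod_cast h8))
    (by
      rw [hScard]
      have h6 : R ^ ex n m r k < R ^ (n ^ a) := pow_lt_pow_right₀ (by linarith) h4
      exact h6.trans_le (pow_le_pow_left₀ hR0.le hRc _))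
    ⌊(C1 : ℝ) * R ^ c⌋₊ (fun p hp => Nat.le_floor (hS p hp).2.2)
  refine ⟨hfin, ?_⟩
  obtain ⟨N, hN⟩ : ∃ N, N = n * (r + 1) := ⟨_, rfl⟩
  rw [hScard, ← hN] at hcard
  have hNr : (r : ℝ) + 1 ≤ N := by
    rw [hN]
    push_cast
    nlinarith [(Nat.cast_nonneg r : (0 : ℝ) ≤ r)]
  have hN1 : (1 : ℝ) ≤ N := by linarith [(Nat.cast_nonneg r : (0 : ℝ) ≤ r)]
  have hRc0 : 0 < R ^ c := by positivity
  have hP : ((⌊(C1 : ℝ) * R ^ c⌋₊ : ℕ) : ℝ) ≤ C1 * R ^ c := Nat.floor_le (by positivity)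
  have h6 : ((FS n X).ncard : ℝ) ≤ (n : ℝ) ^ a * (((C1 : ℝ) * R ^ c) ^ N *
      ((n : ℝ) ^ (a * (r + 1)) * n)) := by
    have h7 : ((FS n X).ncard : ℝ) ≤ (n : ℝ) ^ a * (((⌊(C1 : ℝ) * R ^ c⌋₊ : ℕ) : ℝ) ^ N *
        ((d1 : ℝ) * n)) := by exact_mod_cast hcard
    have h8 : (d1 : ℝ) ≤ (n : ℝ) ^ (a * (r + 1)) := by exact_mod_cast h5
    refine h7.trans (mul_le_mul_of_nonneg_left ?_ (by positivity))
    exact mul_le_mul (pow_le_pow_left₀ (Nat.cast_nonneg _) hP N)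
      (mul_le_mul_of_nonneg_right h8 hn0.le) (by positivity) (by positivity)
  have hC1n : (C1 : ℝ) ^ N ≤ (n : ℝ) ^ ((C1 : ℝ) * N) := by
    have h7 : C1 ≤ n ^ C1 := (Nat.lt_pow_self (by omega)).le
    have h8 : (C1 : ℝ) ≤ (n : ℝ) ^ C1 := by exact_mod_cast h7
    calc (C1 : ℝ) ^ N ≤ ((n : ℝ) ^ C1) ^ N := pow_le_pow_left₀ (Nat.cast_nonneg _) h8 N
      _ = (n : ℝ) ^ ((C1 : ℝ) * N) := by
        rw [← pow_mul, ← Real.rpow_natCast]
        push_cast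
        rfl
  have hRN : (R ^ c) ^ N = (n : ℝ) ^ ((a : ℝ) * c * N) * X ^ (c * ((r : ℝ) + 1)) := by
    rw [hR, Real.mul_rpow (by positivity) (by positivity), mul_pow]
    congr 1
    · rw [← Real.rpow_natCast (n : ℝ) a, ← Real.rpow_mul hn0.le, ← Real.rpow_natCast,
        ← Real.rpow_mul hn0.le]
    · rw [← Real.rpow_mul hX0.le, ← Real.rpow_natCast, ← Real.rpow_mul hX0.le]
      congr 1
      rw [hN]
      push_cast
      field_simp
  have hXc : X ^ (c * (Nat.clog m n : ℝ)) = X ^ (c * ((r : ℝ) + 1)) := by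
    rw [← hr]
    push_cast
    rfl
  rw [hXc]
  refine h6.trans ?_
  have hXp : 0 < X ^ (c * ((r : ℝ) + 1)) := by positivity
  calc (n : ℝ) ^ a * (((C1 : ℝ) * R ^ c) ^ N * ((n : ℝ) ^ (a * (r + 1)) * n))
      = (n : ℝ) ^ a * (((C1 : ℝ) ^ N * ((n : ℝ) ^ ((a : ℝ) * c * N) *
          X ^ (c * ((r : ℝ) + 1)))) * ((n : ℝ) ^ (a * (r + 1)) * n)) := by
        rw [mul_pow, hRN]
    _ ≤ (n : ℝ) ^ a * (((n : ℝ) ^ ((C1 : ℝ) * N) * ((n : ℝ) ^ ((a : ℝ) * c * N) *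
          X ^ (c * ((r : ℝ) + 1)))) * ((n : ℝ) ^ (a * (r + 1)) * n)) := by
        refine mul_le_mul_of_nonneg_left ?_ (by positivity)
        refine mul_le_mul_of_nonneg_right ?_ (by positivity)
        exact mul_le_mul_of_nonneg_right hC1n (by positivity)
    _ = (n : ℝ) ^ ((a : ℝ) + C1 * N + a * c * N + a * (r + 1) + 1) *
          X ^ (c * ((r : ℝ) + 1)) := by
        rw [Real.rpow_add hn0, Real.rpow_add hn0, Real.rpow_add hn0, Real.rpow_add hn0,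
          Real.rpow_one, Real.rpow_natCast]
        have h7 : (n : ℝ) ^ ((a : ℝ) * ((r : ℝ) + 1)) = (n : ℝ) ^ (a * (r + 1)) := by
          rw [← Real.rpow_natCast]
          push_cast
          rfl
        rw [h7]
        ring
    _ ≤ (n : ℝ) ^ (3 * ((C1 : ℝ) + 2 * a + a * c + 1) * n * Real.log n) *
          X ^ (c * ((r : ℝ) + 1)) := by
        refine mul_le_mul_of_nonneg_right ?_ hXp.le
        refine Real.rpow_le_rpow_of_exponent_le hn1 ?_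
        have ha0 : (0 : ℝ) ≤ a := Nat.cast_nonneg a
        have hC0 : (0 : ℝ) ≤ C1 := Nat.cast_nonneg C1
        have h7 : (a : ℝ) + C1 * N + a * c * N + a * (r + 1) + 1 ≤
            ((C1 : ℝ) + 2 * a + a * c + 1) * N := by
          have e1 : (a : ℝ) ≤ a * N := le_mul_of_one_le_right ha0 hN1
          have e2 : (a : ℝ) * (r + 1) ≤ a * N := mul_le_mul_of_nonneg_left hNr ha0
          nlinarith
        have h8 : (N : ℝ) ≤ n * (3 * Real.log n) := by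
          rw [hN, Nat.cast_mul]
          refine mul_le_mul_of_nonneg_left ?_ hn0.le
          rw [hr]
          exact hcl
        calc _ ≤ ((C1 : ℝ) + 2 * a + a * c + 1) * N := h7
          _ ≤ ((C1 : ℝ) + 2 * a + a * c + 1) * (n * (3 * Real.log n)) :=
            mul_le_mul_of_nonneg_left h8 (by positivity)
          _ = 3 * ((C1 : ℝ) + 2 * a + a * c + 1) * n * Real.log n := by ring

end NFU
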