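import Pool.Agent.Lib.NFU.Defs
import Pool.Agent.Lib.NFU.Chol
import Pool.Agent.Lib.NFU.Gam
import Pool.Agent.Lib.MP_44a56e_nt.Hermite

/-!
MP_44a56e_nt (uniform), module Mink (about 200 lines): the product of the successive minima
(Minkowski's second theorem with Hermite's constant).

PROOF. `W` = the real matrix with the columns `w i` (`W a i = w i a`), `det W ≠ 0`. `A = Wᵀ G W`
is positive definite; `chol`: `A = Rᵀ R`, `R` upper triangular, `det R ≠ 0`, so `R i i ≠ 0`. For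
real `y`: `(W y) ⬝ G (W y) = ∑_i (R y)_i ^ 2`. `Λ_i = qf G (w i) > 0`.
`S = diag(Λ_i^(-1/2)) R W⁻¹`, `G' = Sᵀ S`: positive definite, `det G' = det(R)^2 / (det(W)^2 ∏
Λ_i) = det G / ∏ Λ_i` (`det A = det(R)^2 = det(W)^2 det G`), `G' (z) := z ⬝ G' z = ∑_i (R W⁻¹ z)_i
^ 2 / Λ_i`.
Claim: `G' (z) ≥ 1` for every integer vector `z ≠ 0`. Let `y = W⁻¹ z ≠ 0` (real), `i` the largest
index with `y_i ≠ 0`. `(R y)_j = 0` for `j > i`. If `qf G z < Λ_i` then by `hsp` `z = ∑_{j<i} q_j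
w_j`, i.e. `z = W q`, `y = q` (real), so `y_i = 0`: contradiction. So `qf G z ≥ Λ_i` and
`G' (z) = ∑_{j ≤ i} (R y)_j^2/Λ_j ≥ (1/Λ_i) ∑_{j ≤ i} (R y)_j^2 = qf G z / Λ_i ≥ 1` (`Λ_j ≤ Λ_i`
by `hmono`).
`QTow.hermite` for `G'`: an integer vector `z ≠ 0` with `G' (z) ≤ gam n (det G')^(1/n)`, so `1 ≤
gam n ^ n * det G / ∏ Λ_i`.
-/

set_option autoImplicit false

open Matrix

namespace NFU

private theorem mk_conj {n : ℕ} (B M : Matrix (Fin n) (Fin n) ℝ) (y : Fin n → ℝ) :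
    (B.mulVec y) ⬝ᵥ (M.mulVec (B.mulVec y)) = y ⬝ᵥ ((Bᵀ * M * B).mulVec y) := by
  rw [← mulVec_mulVec, ← mulVec_mulVec, dotProduct_mulVec y Bᵀ, vecMul_transpose]

private theorem mk_posdef {n : ℕ} (B M : Matrix (Fin n) (Fin n) ℝ) (hM : M.PosDef)
    (hB : B.det ≠ 0) : (Bᵀ * M * B).PosDef := by
  have h := hM.conjTranspose_mul_mul_same (B := B)
    (mulVec_injective_of_isUnit ((isUnit_iff_isUnit_det B).2 (isUnit_iff_ne_zero.2 hB)))
  rwa [conjTranspose_eq_transpose_of_trivial] at h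

private theorem mk_pos {n : ℕ} (G : Matrix (Fin n) (Fin n) ℝ) (hG : G.PosDef) (z : Fin n → ℤ)
    (hz : z ≠ 0) : 0 < qf G z := by
  have h : (fun i => (z i : ℝ)) ≠ 0 := by
    intro h0
    apply hz
    funext i
    have := congrFun h0 i
    simpa using this
  have h2 := hG.dotProduct_mulVec_pos h
  rwa [star_trivial] at h2

/-- the claim: the new form is at least one -/
private theorem mk_claim {n : ℕ} (G R W : Matrix (Fin n) (Fin n) ℝ)
    (w : Fin n → Fin n → ℤ) (hW : W = Matrix.of fun a i => (w i a : ℝ)) (hWd : W.det ≠ 0)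
    (hR : ∀ i j, j < i → R i j = 0) (hRA : Rᵀ * R = Wᵀ * G * W)
    (hpos : ∀ i, 0 < qf G (w i)) (hmono : Monotone fun i => qf G (w i))
    (hsp : ∀ (z : Fin n → ℤ) (i : Fin n), qf G z < qf G (w i) →
      ∃ q : Fin n → ℚ, (∀ j, i ≤ j → q j = 0) ∧ ∀ a, (z a : ℚ) = ∑ j, q j * (w j a : ℚ))
    (z : Fin n → ℤ) (hz : z ≠ 0) :
    1 ≤ ∑ j, (R.mulVec (W⁻¹.mulVec fun i => (z i : ℝ))) j ^ 2 / qf G (w j) := by
  set y : Fin n → ℝ := W⁻¹.mulVec fun i => (z i : ℝ) with hy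
  have hWy : W.mulVec y = fun i => (z i : ℝ) := by
    rw [hy, mulVec_mulVec, mul_nonsing_inv _ (isUnit_iff_ne_zero.2 hWd), one_mulVec]
  have hqf : qf G z = ∑ j, (R.mulVec y) j ^ 2 := by
    have h1 := mk_conj W G y
    rw [hWy, ← hRA, ← mulVec_mulVec, dotProduct_mulVec y Rᵀ, vecMul_transpose] at h1
    rw [qf, h1, dotProduct]
    exact Finset.sum_congr rfl fun j _ => (sq _).symm
  have hy0 : ∃ i, y i ≠ 0 := by
    by_contra hno
    push Not at hno
    have hy1 : y = 0 := funext hno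
    rw [hy1, mulVec_zero] at hWy
    apply hz
    funext i
    have := congrFun hWy i
    simpa using this.symm
  obtain ⟨i, hi, himax⟩ : ∃ i, y i ≠ 0 ∧ ∀ j, i < j → y j = 0 := by
    have hne : (Finset.univ.filter fun i => y i ≠ 0).Nonempty := by
      obtain ⟨i, hi⟩ := hy0
      exact ⟨i, Finset.mem_filter.2 ⟨Finset.mem_univ _, hi⟩⟩
    refine ⟨(Finset.univ.filter fun i => y i ≠ 0).max' hne,
      (Finset.mem_filter.1 (Finset.max'_mem _ hne)).2, fun j hj => ?_⟩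
    by_contra h
    exact absurd (Finset.le_max' _ j (Finset.mem_filter.2 ⟨Finset.mem_univ _, h⟩)) (not_le.2 hj)
  have hRy : ∀ j, i < j → (R.mulVec y) j = 0 := by
    intro j hj
    rw [mulVec, dotProduct]
    refine Finset.sum_eq_zero fun k _ => ?_
    rcases lt_or_ge k j with h | h
    · rw [hR j k h, zero_mul]
    · rw [himax k (lt_of_lt_of_le hj h), mul_zero]
  have hle : qf G (w i) ≤ qf G z := by
    by_contra hlt
    obtain ⟨q, hq0, hq⟩ := hsp z i (not_le.1 hlt)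
    apply hi
    have h1 : W.mulVec (fun j => (q j : ℝ)) = fun a => (z a : ℝ) := by
      funext a
      rw [mulVec, dotProduct, hW]
      have h2 := congrArg (fun t : ℚ => (t : ℝ)) (hq a)
      push_cast at h2
      rw [h2]
      refine Finset.sum_congr rfl fun j _ => ?_
      rw [Matrix.of_apply, mul_comm]
    have h3 : y = fun j => (q j : ℝ) := by
      rw [hy, ← h1, mulVec_mulVec, nonsing_inv_mul _ (isUnit_iff_ne_zero.2 hWd), one_mulVec]
    rw [h3]
    simp [hq0 i le_rfl]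
  have hstep : ∑ j, (R.mulVec y) j ^ 2 / qf G (w i) ≤ ∑ j, (R.mulVec y) j ^ 2 / qf G (w j) := by
    refine Finset.sum_le_sum fun j _ => ?_
    rcases lt_or_ge i j with h | h
    · rw [hRy j h]
      simp
    · exact div_le_div_of_nonneg_left (sq_nonneg _) (hpos j) (hmono h)
  refine le_trans ?_ hstep
  rw [← Finset.sum_div, ← hqf]
  rwa [le_div_iff₀ (hpos i), one_mul]

theorem mink (n : ℕ) (hn : 1 ≤ n) (G : Matrix (Fin n) (Fin n) ℝ) (hG : G.PosDef)
    (w : Fin n → Fin n → ℤ) (hw : (Matrix.of fun i a => (w i a : ℚ)).det ≠ 0)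
    (hmono : Monotone fun i => qf G (w i))
    (hsp : ∀ (z : Fin n → ℤ) (i : Fin n), qf G z < qf G (w i) →
      ∃ q : Fin n → ℚ, (∀ j, i ≤ j → q j = 0) ∧ ∀ a, (z a : ℚ) = ∑ j, q j * (w j a : ℚ)) :
    ∏ i, qf G (w i) ≤ QTow.gam n ^ n * G.det := by
  classical
  set W : Matrix (Fin n) (Fin n) ℝ := Matrix.of fun a i => (w i a : ℝ) with hW
  have hWd : W.det ≠ 0 := by
    have h1 : W = ((algebraMap ℚ ℝ).mapMatrix (Matrix.of fun i a => (w i a : ℚ)))ᵀ := by
      ext a i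
      simp [hW]
    rw [h1, det_transpose, ← RingHom.map_det]
    intro h0
    exact hw ((algebraMap ℚ ℝ).injective (h0.trans (map_zero _).symm))
  have hwne : ∀ i, w i ≠ 0 := by
    intro i h0
    apply hw
    refine det_eq_zero_of_row_eq_zero i fun a => ?_
    rw [Matrix.of_apply, h0]
    simp
  have hpos : ∀ i, 0 < qf G (w i) := fun i => mk_pos G hG _ (hwne i)
  obtain ⟨R, hR, hRA⟩ := chol (Wᵀ * G * W) (mk_posdef W G hG hWd)
  have hdet : R.det ^ 2 = W.det ^ 2 * G.det := by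
    have h1 := congrArg Matrix.det hRA
    rw [det_mul, det_transpose, det_mul, det_mul, det_transpose] at h1
    linear_combination h1
  have hGd : 0 < G.det := hG.det_pos
  have hRd : R.det ≠ 0 := by
    intro h0
    rw [h0] at hdet
    have h2 : 0 < W.det ^ 2 * G.det := by positivity
    nlinarith
  set P : Matrix (Fin n) (Fin n) ℝ := R * W⁻¹ with hP
  set D : Matrix (Fin n) (Fin n) ℝ := diagonal fun i => (qf G (w i))⁻¹ with hD
  have hWi : (W⁻¹).det = (W.det)⁻¹ := by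
    rw [det_nonsing_inv, Ring.inverse_eq_inv']
  have hPd : P.det ≠ 0 := by
    rw [hP, det_mul, hWi]
    exact mul_ne_zero hRd (inv_ne_zero hWd)
  have hDp : D.PosDef := posDef_diagonal_iff.2 fun i => inv_pos.2 (hpos i)
  have hG' : (Pᵀ * D * P).PosDef := mk_posdef P D hDp hPd
  have hprod : 0 < ∏ i, qf G (w i) := Finset.prod_pos fun i _ => hpos i
  have hdG' : (Pᵀ * D * P).det = G.det / ∏ i, qf G (w i) := by
    rw [det_mul, det_mul, det_transpose, hP, det_mul, hWi, hD, det_diagonal,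
      Finset.prod_inv_distrib]
    have h1 : R.det * (W.det)⁻¹ * (∏ i, qf G (w i))⁻¹ * (R.det * (W.det)⁻¹) =
        R.det ^ 2 * (W.det ^ 2)⁻¹ * (∏ i, qf G (w i))⁻¹ := by
      ring
    rw [h1, hdet]
    field_simp
  obtain ⟨z, hz, hle⟩ := QTow.hermite (by omega : 0 < n) (Pᵀ * D * P) hG'
  have h1 : (fun i => (z i : ℝ)) ⬝ᵥ (Pᵀ * D * P).mulVec (fun i => (z i : ℝ)) =
      ∑ j, (R.mulVec (W⁻¹.mulVec fun i => (z i : ℝ))) j ^ 2 / qf G (w j) := by
    rw [← mk_conj P D, hP, ← mulVec_mulVec, hD, dotProduct]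
    refine Finset.sum_congr rfl fun j _ => ?_
    rw [mulVec_diagonal]
    ring
  rw [h1] at hle
  have h2 := (mk_claim G R W w hW hWd hR hRA hpos hmono hsp z hz).trans hle
  have hd0 : 0 ≤ (Pᵀ * D * P).det := hG'.det_pos.le
  have h3 : (1 : ℝ) ≤ (QTow.gam n * (Pᵀ * D * P).det ^ ((1 : ℝ) / n)) ^ n := one_le_pow₀ h2
  rw [mul_pow, ← Real.rpow_natCast (_ ^ ((1 : ℝ) / n)), ← Real.rpow_mul hd0,
    one_div_mul_cancel (by positivity), Real.rpow_one, hdG', ← mul_div_assoc,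
    le_div_iff₀ hprod, one_mul] at h3
  exact h3

end NFU
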