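import Pool.Agent.Lib.NFU.Defs

/-!
MP_44a56e_nt (uniform), module ProdA (about 150 lines): the last minimum is bounded by the product of the others.

PROOF. `T2 (z z') ≤ T2 z * T2 z'` (`∑ |φ z|^2 |φ z'|^2 ≤ (∑ |φ z|^2)(∑ |φ z'|^2)`). `n ≥ 1`; let `e` be the last index; by monotonicity it suffices to bound `T2 (w e)`. `w` is a basis of `K` over `ℚ` (`n` independent vectors); `l : K →ₗ[ℚ] ℚ` the coordinate number `e`.
Contrapositive of `hsp` for `i = e`: `l z ≠ 0` implies `T2 (w e) ≤ T2 z` for `z ∈ 𝓞 K`. For every `i : Fin n` (`Fin.rev i = n-1-i`) there are `a ≤ i`, `b ≤ Fin.rev i` with `l (w a * w b) ≠ 0`: otherwise the subspaces `U = span (w a, a ≤ i)` (dimension `i+1`) and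
`V = span (w b, b ≤ rev i)` (dimension `n-i`) are orthogonal for the bilinear form `(x,y) ↦ l (x y)`, which is nondegenerate (`x ≠ 0`: `l (x · (x⁻¹ w e)) = 1`), so the injective map `V → (K ⧸ U)*`, hence `dim V ≤ n - dim U`: `n - i ≤ n - i - 1`, impossible (`LinearMap.BilinForm.finrank_orthogonal` or an explicit rank argument).
So `T2 (w e) ≤ T2 (w a * w b) ≤ T2 (w a) T2 (w b) ≤ T2 (w i) T2 (w (rev i))`. The product over all `i`: `T2 (w e)^n ≤ (∏ T2 (w i)) (∏ T2 (w (rev i))) = (∏ T2 (w i))^2`.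
-/

set_option autoImplicit false

open Module NumberField

namespace NFU

private theorem prodA_T2_nonneg {K : Type} [Field K] [NumberField K] (z : K) : 0 ≤ T2 z := by
  unfold T2
  exact Finset.sum_nonneg (fun φ _ => by positivity)

private theorem prodA_T2_mul {K : Type} [Field K] [NumberField K] (z z' : K) : T2 (z * z') ≤ T2 z * T2 z' := by
  unfold T2
  rw [Finset.sum_mul]
  refine Finset.sum_le_sum fun φ _ => ?_
  rw [map_mul, norm_mul, mul_pow]
  refine mul_le_mul_of_nonneg_left ?_ (by positivity)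
  exact Finset.single_le_sum (f := fun ψ : K →+* ℂ => ‖ψ z'‖ ^ 2) (fun ψ _ => by positivity) (Finset.mem_univ φ)

/-- the rank argument -/
private theorem prodA_pair (K : Type) [Field K] [NumberField K] (N : ℕ) (hn : finrank ℚ K = N + 1)
    (w : Fin (N + 1) → K) (hli : LinearIndependent ℚ w) (l : K →ₗ[ℚ] ℚ) (y : K) (hy : l y ≠ 0) (i : Fin (N + 1)) :
    ∃ a b : Fin (N + 1), a ≤ i ∧ b ≤ Fin.rev i ∧ l (w a * w b) ≠ 0 := by
  classical
  by_contra hcon
  push Not at hcon
  let T : K →ₗ[ℚ] Module.Dual ℚ K := (LinearMap.mul ℚ K).compr₂ l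
  have hT : ∀ x z, T x z = l (x * z) := fun x z => rfl
  have hTinj : Function.Injective T := by
    rw [← LinearMap.ker_eq_bot, LinearMap.ker_eq_bot']
    intro x hx
    by_contra hx0
    have h1 : T x (x⁻¹ * y) = 0 := by rw [hx]; rfl
    rw [hT, mul_inv_cancel_left₀ hx0] at h1
    exact hy h1
  let U : Submodule ℚ K := Submodule.span ℚ (Set.range (fun a : {a : Fin (N + 1) // a ≤ i} => w a))
  have hUr : finrank ℚ U = Fintype.card {a : Fin (N + 1) // a ≤ i} :=
    finrank_span_eq_card (hli.comp _ Subtype.val_injective)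
  have hUc : Fintype.card {a : Fin (N + 1) // a ≤ i} = (i : ℕ) + 1 := by
    rw [Fintype.card_subtype]
    have : (Finset.univ.filter (fun a : Fin (N + 1) => a ≤ i)) = Finset.Iic i := by
      ext a
      simp
    rw [this, Fin.card_Iic]
  have hVc : Fintype.card {b : Fin (N + 1) // b ≤ Fin.rev i} = N - i + 1 := by
    rw [Fintype.card_subtype]
    have : (Finset.univ.filter (fun a : Fin (N + 1) => a ≤ Fin.rev i)) = Finset.Iic (Fin.rev i) := by
      ext a
      simp
    rw [this, Fin.card_Iic, Fin.val_rev]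
    omega
  have hmem : ∀ b : {b : Fin (N + 1) // b ≤ Fin.rev i}, T (w b) ∈ U.dualAnnihilator := by
    intro b
    rw [Submodule.mem_dualAnnihilator]
    intro u hu
    refine Submodule.span_induction (p := fun u _ => T (w b) u = 0) ?_ ?_ ?_ ?_ hu
    · rintro _ ⟨a, rfl⟩
      change T (w b) (w a) = 0
      rw [hT, mul_comm]
      exact hcon a b a.2 b.2
    · exact map_zero _
    · intro x z _ _ hx hz
      rw [map_add, hx, hz, add_zero]
    · intro q x _ hx
      rw [map_smul, hx, smul_zero]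
  let v : {b : Fin (N + 1) // b ≤ Fin.rev i} → U.dualAnnihilator := fun b => ⟨T (w b), hmem b⟩
  have hv : LinearIndependent ℚ v := by
    have h1 : LinearIndependent ℚ (fun b : {b : Fin (N + 1) // b ≤ Fin.rev i} => T (w b)) :=
      (hli.comp _ Subtype.val_injective).map' T (LinearMap.ker_eq_bot.2 hTinj)
    exact LinearIndependent.of_comp U.dualAnnihilator.subtype h1
  have h2 := hv.fintype_card_le_finrank
  have h3 := Subspace.finrank_add_finrank_dualAnnihilator_eq U
  rw [hUr, hUc, hn] at h3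
  rw [hVc] at h2
  have := i.2
  omega

theorem prod_arg (K : Type) [Field K] [NumberField K] (n : ℕ) (hn : finrank ℚ K = n)
    (w : Fin n → 𝓞 K) (hli : LinearIndependent ℚ (fun i => (w i : K)))
    (hmono : Monotone fun i => T2 (w i : K))
    (hsp : ∀ (z : 𝓞 K) (i : Fin n), T2 (z : K) < T2 (w i : K) →
      ∃ q : Fin n → ℚ, (∀ j, i ≤ j → q j = 0) ∧ (z : K) = ∑ j, q j • (w j : K)) (i : Fin n) :
    T2 (w i : K) ^ n ≤ (∏ j, T2 (w j : K)) ^ 2 := by
  classical
  obtain ⟨N, rfl⟩ : ∃ N, n = N + 1 := ⟨n - 1, by have := i.2; omega⟩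
  let e : Fin (N + 1) := Fin.last N
  let B : Basis (Fin (N + 1)) ℚ K := basisOfLinearIndependentOfCardEqFinrank hli (by simp [hn])
  have hB : ∀ j, B j = (w j : K) := fun j => by
    simp [B]
  let l : K →ₗ[ℚ] ℚ := B.coord e
  have hl : ∀ j, l (w j : K) = if j = e then 1 else 0 := by
    intro j
    have : l (B j) = if j = e then 1 else 0 := by
      simp only [l, Basis.coord_apply, Basis.repr_self, Finsupp.single_apply]
    rw [← hB]
    exact this
  have hz : ∀ z : 𝓞 K, l (z : K) ≠ 0 → T2 (w e : K) ≤ T2 (z : K) := by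
    intro z hz
    by_contra hcon
    rw [not_le] at hcon
    obtain ⟨q, hq, hzq⟩ := hsp z e hcon
    apply hz
    rw [hzq, map_sum]
    refine Finset.sum_eq_zero fun j _ => ?_
    rw [map_smul, hl]
    by_cases hj : j = e
    · rw [hq j (by rw [hj]), zero_smul]
    · rw [if_neg hj, smul_zero]
  have hpair : ∀ j, T2 (w e : K) ≤ T2 (w j : K) * T2 (w (Fin.rev j) : K) := by
    intro j
    obtain ⟨a, b, ha, hb, hab⟩ := prodA_pair K N hn (fun i => (w i : K)) hli l (w e : K)
      (by rw [hl]; simp) j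
    have hmul : ((w a * w b : 𝓞 K) : K) = (w a : K) * (w b : K) := rfl
    have h1 : T2 (w e : K) ≤ T2 ((w a * w b : 𝓞 K) : K) := hz (w a * w b) (by
      rw [hmul]
      exact hab)
    rw [hmul] at h1
    refine h1.trans ((prodA_T2_mul _ _).trans ?_)
    exact mul_le_mul (hmono ha) (hmono hb) (prodA_T2_nonneg _) (prodA_T2_nonneg _)
  have hie : T2 (w i : K) ≤ T2 (w e : K) := hmono (Fin.le_last i)
  have h1 : T2 (w i : K) ^ (N + 1) ≤ T2 (w e : K) ^ (N + 1) := pow_le_pow_left₀ (prodA_T2_nonneg _) hie _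
  refine h1.trans ?_
  have h2 : T2 (w e : K) ^ (N + 1) = ∏ _j : Fin (N + 1), T2 (w e : K) := by simp
  have h3 : ∏ j : Fin (N + 1), T2 (w (Fin.rev j) : K) = ∏ j, T2 (w j : K) :=
    Equiv.prod_comp Fin.revPerm (fun j => T2 (w j : K))
  have h4 : (∏ j, T2 (w j : K)) ^ 2 = ∏ j, (T2 (w j : K) * T2 (w (Fin.rev j) : K)) := by
    rw [Finset.prod_mul_distrib, h3, sq]
  rw [h2, h4]
  exact Finset.prod_le_prod (fun j _ => prodA_T2_nonneg _) (fun j _ => hpair j)

end NFU
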