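import Pool.Agent.Lib.NFU.Greedy
import Pool.Agent.Lib.NFU.Mink
import Pool.Agent.Lib.NFU.ProdA
import Pool.Agent.Lib.NFU.GramT

/-!
MP_44a56e_nt (uniform), module ShortW (about 130 lines): independent integers of size `2 n |D|^(1/n)`.

PROOF. `e` = a `ℤ`-basis of `𝓞 K` indexed by `Fin n` (`RingOfIntegers.basis` reindexed, `RingOfIntegers.rank`), `G` from `gramT2`: `qf G c = T2 (∑ c_i e_i)`. `greedy` with `V = K`, `α = 𝓞 K`, `ι` the inclusion (its range spans `K` over `ℚ`: every element of `K` is an integer divided by a natural number), `Q = T2`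
(finiteness: `NumberField.Embeddings.finite_of_norm_le` or the finiteness of integer vectors with `qf G c ≤ B`). Get `w : Fin n → 𝓞 K`. Coordinates: `c i = e.repr (w i)` (integer vectors), `w i = ∑ c_i e`. The determinant of `(c i a)` over `ℚ` is `≠ 0` (a rational relation between the rows gives one between the `w i`).
`mink` (a relation `z = ∑ q_j w_j` in `K` gives `z a = ∑ q_j c_j a` for the coordinates: the `e_i` are independent over `ℚ`): `P := ∏ T2 (w i) ≤ gam^n |D|`. `prod_arg`: `T2 (w i)^n ≤ P^2 ≤ (gam^n |D|)^2`, so `‖φ (w i)‖ ≤ T2^(1/2) ≤ gam |D|^(1/n) ≤ 2 n |D|^(1/n)` (`gam_le`).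
-/

set_option autoImplicit false

open Module NumberField

namespace NFU

private theorem shortW_le_T2 {K : Type} [Field K] [NumberField K] (z : K) (φ : K →+* ℂ) : ‖φ z‖ ^ 2 ≤ T2 z := by
  unfold T2
  exact Finset.single_le_sum (f := fun ψ : K →+* ℂ => ‖ψ z‖ ^ 2) (fun ψ _ => by positivity) (Finset.mem_univ φ)

private theorem shortW_finite (K : Type) [Field K] [NumberField K] (B : ℝ) :
    {z : 𝓞 K | T2 (z : K) ≤ B}.Finite := by
  have h1 := NumberField.Embeddings.finite_of_norm_le K ℂ (Real.sqrt B)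
  refine Set.Finite.subset (h1.preimage (f := fun z : 𝓞 K => (z : K))
    (fun x _ y _ h => NumberField.RingOfIntegers.ext h)) ?_
  intro z hz
  refine ⟨z.isIntegral_coe, fun φ => ?_⟩
  exact Real.le_sqrt_of_sq_le ((shortW_le_T2 _ φ).trans hz)

theorem short_indep (K : Type) [Field K] [NumberField K] (n : ℕ) (hn : finrank ℚ K = n) :
    ∃ w : Fin n → 𝓞 K, LinearIndependent ℚ (fun i => (w i : K)) ∧
      ∀ (i : Fin n) (φ : K →+* ℂ),
        ‖φ (w i : K)‖ ≤ 2 * n * |(discr K : ℝ)| ^ ((1 : ℝ) / n) := by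
  classical
  have hn1 : 1 ≤ n := by rw [← hn]; exact Module.finrank_pos
  have hnz : finrank ℤ (𝓞 K) = n := by rw [RingOfIntegers.rank, hn]
  obtain ⟨e, -⟩ : ∃ e : Basis (Fin n) ℤ (𝓞 K), True := ⟨Module.finBasisOfFinrankEq ℤ (𝓞 K) hnz, trivial⟩
  obtain ⟨b, hb⟩ : ∃ b : Basis (Fin n) ℚ K, ∀ i, b i = ((e i : 𝓞 K) : K) :=
    ⟨e.localizationLocalization ℚ (nonZeroDivisors ℤ) K, fun i =>
      Basis.localizationLocalization_apply ℚ (nonZeroDivisors ℤ) K e i⟩
  obtain ⟨G, hG, hGd, hGq⟩ := gramT2 K n hn e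
  have hspan : Submodule.span ℚ (Set.range (fun z : 𝓞 K => (z : K))) = ⊤ := by
    rw [eq_top_iff, ← b.span_eq]
    refine Submodule.span_mono ?_
    rintro _ ⟨i, rfl⟩
    exact ⟨e i, (hb i).symm⟩
  obtain ⟨w, hli, hmono, hsp⟩ := greedy (V := K) (α := 𝓞 K) n hn (fun z : 𝓞 K => (z : K)) hspan
    (fun z : 𝓞 K => T2 (z : K)) (shortW_finite K)
  refine ⟨w, hli, ?_⟩
  let c : Fin n → Fin n → ℤ := fun i a => e.repr (w i) a
  have hc : ∀ i, ∑ a, c i a • e a = w i := fun i => e.sum_repr (w i)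
  have hcK : ∀ z : Fin n → ℤ, ((∑ a, z a • e a : 𝓞 K) : K) = ∑ a, (z a : ℚ) • b a := by
    intro z
    change algebraMap (𝓞 K) K (∑ a, z a • e a) = _
    rw [map_sum]
    refine Finset.sum_congr rfl fun a _ => ?_
    rw [hb, zsmul_eq_mul, map_mul, map_intCast, Algebra.smul_def]
    simp
  have hwK : ∀ i, (w i : K) = ∑ a, (c i a : ℚ) • b a := by
    intro i
    rw [← hcK, hc]
  have hdet : (Matrix.of fun i a => (c i a : ℚ)).det ≠ 0 := by
    intro h0
    obtain ⟨v, hv0, hv⟩ := Matrix.exists_vecMul_eq_zero_iff.2 h0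
    apply hv0
    have h1 : ∑ i, v i • (w i : K) = 0 := by
      simp_rw [hwK, Finset.smul_sum, smul_smul]
      rw [Finset.sum_comm]
      refine Finset.sum_eq_zero fun a _ => ?_
      rw [← Finset.sum_smul]
      have h2 := congrFun hv a
      simp only [Matrix.vecMul, dotProduct, Matrix.of_apply, Pi.zero_apply] at h2
      rw [h2, zero_smul]
    have h3 := Fintype.linearIndependent_iff.1 hli v h1
    funext i
    exact h3 i
  have hqf : ∀ i, qf G (c i) = T2 (w i : K) := by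
    intro i
    rw [hGq, hc]
  have hmink := mink n hn1 G hG c hdet (by
      intro i j hij
      change qf G (c i) ≤ qf G (c j)
      rw [hqf, hqf]
      exact hmono hij) (by
      intro z i hz
      rw [hqf, hGq] at hz
      obtain ⟨q, hq, hzq⟩ := hsp _ i hz
      refine ⟨q, hq, ?_⟩
      have h1 : ∑ a, (z a : ℚ) • b a = ∑ a, (∑ j, q j * (c j a : ℚ)) • b a := by
        rw [← hcK]
        rw [hzq]
        simp_rw [hwK, Finset.smul_sum, smul_smul]
        rw [Finset.sum_comm]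
        refine Finset.sum_congr rfl fun a _ => ?_
        rw [← Finset.sum_smul]
      intro a
      have h2 : ∑ a, ((z a : ℚ) - ∑ j, q j * (c j a : ℚ)) • b a = 0 := by
        simp_rw [sub_smul]
        rw [Finset.sum_sub_distrib, h1, sub_self]
      have h3 := Fintype.linearIndependent_iff.1 b.linearIndependent _ h2 a
      linarith)
  rw [hGd] at hmink
  simp_rw [hqf] at hmink
  intro i φ
  have hp := prod_arg K n hn w hli hmono hsp i
  have hgam0 : 0 < QTow.gam n := gam_pos n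
  have hgam := gam_le n hn1
  have hd0 : 0 ≤ |(discr K : ℝ)| := abs_nonneg _
  have hP0 : 0 ≤ ∏ j, T2 (w j : K) := Finset.prod_nonneg (fun j _ => by
    unfold T2
    exact Finset.sum_nonneg (fun φ _ => by positivity))
  have hn0 : (0 : ℝ) < n := by exact_mod_cast hn1
  have h1 : (‖φ (w i : K)‖ ^ n) ^ 2 ≤ (QTow.gam n ^ n * |(discr K : ℝ)|) ^ 2 := by
    calc (‖φ (w i : K)‖ ^ n) ^ 2 = (‖φ (w i : K)‖ ^ 2) ^ n := by rw [← pow_mul, ← pow_mul, mul_comm]
      _ ≤ T2 (w i : K) ^ n := pow_le_pow_left₀ (by positivity) (shortW_le_T2 _ φ) n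
      _ ≤ (∏ j, T2 (w j : K)) ^ 2 := hp
      _ ≤ (QTow.gam n ^ n * |(discr K : ℝ)|) ^ 2 := pow_le_pow_left₀ hP0 hmink 2
  have h2 : ‖φ (w i : K)‖ ^ n ≤ QTow.gam n ^ n * |(discr K : ℝ)| :=
    le_of_sq_le_sq h1 (by positivity)
  have h3 : QTow.gam n ^ n * |(discr K : ℝ)| ≤ (2 * n * |(discr K : ℝ)| ^ ((1 : ℝ) / n)) ^ n := by
    rw [mul_pow]
    refine mul_le_mul (pow_le_pow_left₀ hgam0.le hgam n) ?_ hd0 (by positivity)
    rw [← Real.rpow_natCast, ← Real.rpow_mul hd0, one_div, inv_mul_cancel₀ hn0.ne', Real.rpow_one]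
  exact le_of_pow_le_pow_left₀ (by omega) (by positivity) (h2.trans h3)

end NFU
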