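import Pool.Agent.Lib.NFU.MainU

/-!
MP_44a56e_nt (uniform), module TotalU: number fields of all degrees.
-/

set_option autoImplicit false

open Module NumberField NFH

namespace NFU

private theorem totalU_log16 (X : ℝ) (hX : 16 ≤ X) : 2.77 ≤ Real.log X := by
  have h1 : Real.log 16 ≤ Real.log X := Real.log_le_log (by norm_num) hX
  have h2 : Real.log 16 = 4 * Real.log 2 := by
    rw [show (16 : ℝ) = 2 ^ 4 by norm_num, Real.log_pow]; norm_num
  have h3 := Real.log_two_gt_d9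
  linarith

theorem deg_le (K : Type) [Field K] [NumberField K] (X : ℝ) (hX : 16 ≤ X)
    (h : |(discr K : ℝ)| ≤ X) : (finrank ℚ K : ℝ) ≤ 2 * Real.log X := by
  have hL := totalU_log16 X hX
  rcases Nat.lt_or_ge 1 (finrank ℚ K) with h1 | h1
  · have h2 : (4 / 9 : ℝ) * (3 * Real.pi / 4) ^ finrank ℚ K ≤ |(discr K : ℝ)| :=
      mod_cast abs_discr_ge h1
    have hpi := Real.pi_gt_three
    have h3 : (4 / 9 : ℝ) * (9 / 4 : ℝ) ^ finrank ℚ K ≤ X := by
      refine le_trans ?_ (h2.trans h)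
      gcongr
      linarith
    obtain ⟨m, hm⟩ : ∃ m, finrank ℚ K = m + 1 := ⟨finrank ℚ K - 1, by omega⟩
    rw [hm] at h3 ⊢
    have h4 : (9 / 4 : ℝ) ^ m ≤ X := by
      have : (4 / 9 : ℝ) * (9 / 4 : ℝ) ^ (m + 1) = (9 / 4 : ℝ) ^ m := by
        rw [pow_succ]; ring
      linarith
    have h5 : Real.log ((9 / 4 : ℝ) ^ m) ≤ Real.log X :=
      Real.log_le_log (by positivity) h4
    rw [Real.log_pow] at h5
    have h6 : (2 : ℝ) / 3 ≤ Real.log (9 / 4) := by
      have h7 : Real.log (9 / 4) = 2 * Real.log (3 / 2) := by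
        rw [show (9 / 4 : ℝ) = (3 / 2) ^ 2 by norm_num, Real.log_pow]; norm_num
      have h8 := Real.one_sub_inv_le_log_of_pos (show (0 : ℝ) < 3 / 2 by norm_num)
      rw [h7]
      norm_num at h8 ⊢
      linarith
    have h9 : (m : ℝ) * (2 / 3) ≤ m * Real.log (9 / 4) :=
      mul_le_mul_of_nonneg_left h6 (Nat.cast_nonneg m)
    push_cast
    linarith
  · have : (finrank ℚ K : ℝ) ≤ 1 := by exact_mod_cast h1
    linarith

private theorem totalU_one (X : ℝ) : (FS 1 X).Finite ∧ ((FS 1 X).ncard : ℝ) ≤ 1 := by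
  have hsub : FS 1 X ⊆ {(⊥ : IntermediateField ℚ ℂ)} := by
    rintro K ⟨h1, -⟩
    rw [Set.mem_singleton_iff]
    exact IntermediateField.finrank_eq_one_iff.1 h1
  have hfin : (FS 1 X).Finite := (Set.finite_singleton _).subset hsub
  refine ⟨hfin, ?_⟩
  have := Set.ncard_le_ncard hsub (Set.finite_singleton _)
  rw [Set.ncard_singleton] at this
  exact_mod_cast this

private theorem totalU_real (C : ℝ) (hC : 0 < C) (n : ℕ) (hn : 2 ≤ n) (X : ℝ) (hX : 16 ≤ X)
    (hnL : (n : ℝ) ≤ 2 * Real.log X) :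
    (n : ℝ) ^ (C * n * Real.log n) * X ^ ((2 * ((2 : ℕ) : ℝ) + 1) * (Nat.clog 2 n : ℝ)) ≤
      Real.exp ((8 * C + 30) * (Real.log X * Real.log (Real.log X) ^ 2)) := by
  have hL := totalU_log16 X hX
  set L := Real.log X with hLdef
  have hL0 : 0 < L := by linarith
  have hl1 : 1 ≤ Real.log L := by
    rw [Real.le_log_iff_exp_le hL0]
    linarith [Real.exp_one_lt_d9]
  set l := Real.log L with hldef
  have hn2 : (2 : ℝ) ≤ n := by exact_mod_cast hn
  have hn0 : (0 : ℝ) < n := by linarith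
  have hlogn : Real.log n ≤ 2 * l := by
    have h1 : Real.log n ≤ Real.log (2 * L) := Real.log_le_log hn0 hnL
    rw [Real.log_mul (by norm_num) hL0.ne'] at h1
    linarith [Real.log_two_lt_d9]
  have hlogn2 : Real.log 2 ≤ Real.log n := Real.log_le_log (by norm_num) hn2
  have hlog2 := Real.log_two_gt_d9
  have hclog : (Nat.clog 2 n : ℝ) ≤ 3 * Real.log n := by
    have h1 := Nat.pow_pred_clog_lt_self (b := 2) (by norm_num) (show 1 < n by omega)
    have h2 : 0 < Nat.clog 2 n := Nat.clog_pos (by norm_num) (by omega)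
    obtain ⟨q, hq⟩ : ∃ q, Nat.clog 2 n = q + 1 := ⟨Nat.clog 2 n - 1, by omega⟩
    rw [hq] at h1 ⊢
    rw [Nat.pred_succ] at h1
    have h3 : Real.log ((2 : ℝ) ^ q) ≤ Real.log n := by
      apply Real.log_le_log (by positivity)
      exact_mod_cast h1.le
    rw [Real.log_pow] at h3
    push_cast
    have hq0 : (0 : ℝ) ≤ q := Nat.cast_nonneg q
    nlinarith
  rw [Real.rpow_def_of_pos hn0, Real.rpow_def_of_pos (by linarith : (0 : ℝ) < X), ← Real.exp_add,
    Real.exp_le_exp, ← hLdef]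
  have h1 : Real.log n * (C * n * Real.log n) ≤ 8 * C * (L * l ^ 2) := by
    have h2 : Real.log n * Real.log n ≤ (2 * l) * (2 * l) :=
      mul_le_mul hlogn hlogn (by linarith) (by linarith)
    have h3 : (n : ℝ) * (Real.log n * Real.log n) ≤ (2 * L) * ((2 * l) * (2 * l)) :=
      mul_le_mul hnL h2 (mul_nonneg (by linarith) (by linarith)) (by linarith)
    have h4 := mul_le_mul_of_nonneg_left h3 hC.le
    nlinarith
  have h5 : L * ((2 * ((2 : ℕ) : ℝ) + 1) * (Nat.clog 2 n : ℝ)) ≤ 30 * (L * l ^ 2) := by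
    have h6 : (Nat.clog 2 n : ℝ) ≤ 6 * l := by linarith
    have h7 : l ≤ l ^ 2 := by nlinarith
    have h8 : (Nat.clog 2 n : ℝ) ≤ 6 * l ^ 2 := by linarith
    have h9 := mul_le_mul_of_nonneg_left h8 hL0.le
    push_cast
    linarith
  linarith

theorem totalU : ∃ C : ℝ, 0 < C ∧ ∀ X : ℝ, 16 ≤ X →
    {K : IntermediateField ℚ ℂ | ∃ _ : NumberField K, |(discr K : ℝ)| ≤ X}.Finite ∧
    ({K : IntermediateField ℚ ℂ | ∃ _ : NumberField K, |(discr K : ℝ)| ≤ X}.ncard : ℝ) ≤
      X ^ (C * (Real.log (Real.log X)) ^ 2) := by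
  obtain ⟨C, hC, hmain⟩ := mainU 2 le_rfl 1 one_pos
  refine ⟨8 * C + 31, by linarith, ?_⟩
  intro X hX
  have hL := totalU_log16 X hX
  have hL0 : 0 < Real.log X := by linarith
  have hl1 : 1 ≤ Real.log (Real.log X) := by
    rw [Real.le_log_iff_exp_le hL0]
    linarith [Real.exp_one_lt_d9]
  set N : ℕ := ⌊2 * Real.log X⌋₊ with hN
  have hX1 : 1 ≤ X := by linarith
  set B : ℝ := Real.exp ((8 * C + 30) * (Real.log X * Real.log (Real.log X) ^ 2)) with hB
  have hB1 : 1 ≤ B := by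
    rw [hB]
    apply Real.one_le_exp
    positivity
  have hterm : ∀ n ∈ Finset.Icc 1 N, (FS n X).Finite ∧ ((FS n X).ncard : ℝ) ≤ B := by
    intro n hn
    rw [Finset.mem_Icc] at hn
    rcases Nat.lt_or_ge 1 n with h1 | h1
    · have hnL : (n : ℝ) ≤ 2 * Real.log X := by
        have := (Nat.le_floor_iff (by linarith : (0 : ℝ) ≤ 2 * Real.log X)).1 hn.2
        exact this
      obtain ⟨hf, hc⟩ := hmain n h1 X hX1
      exact ⟨hf, hc.trans (totalU_real C hC n h1 X hX hnL)⟩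
    · have hn1 : n = 1 := le_antisymm h1 hn.1
      subst hn1
      exact ⟨(totalU_one X).1, (totalU_one X).2.trans hB1⟩
  have hsub : {K : IntermediateField ℚ ℂ | ∃ _ : NumberField K, |(discr K : ℝ)| ≤ X} ⊆
      ⋃ n ∈ Finset.Icc 1 N, FS n X := by
    rintro K ⟨hK, hd⟩
    simp only [Set.mem_iUnion]
    refine ⟨finrank ℚ K, ?_, rfl, hK, hd⟩
    rw [Finset.mem_Icc]
    refine ⟨finrank_pos, ?_⟩
    rw [hN, Nat.le_floor_iff (by linarith)]
    exact deg_le K X hX hd
  have hfin : (⋃ n ∈ Finset.Icc 1 N, FS n X).Finite := by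
    apply Set.Finite.biUnion (Finset.finite_toSet _)
    intro n hn
    exact (hterm n hn).1
  refine ⟨hfin.subset hsub, ?_⟩
  have h1 : {K : IntermediateField ℚ ℂ | ∃ _ : NumberField K, |(discr K : ℝ)| ≤ X}.ncard ≤
      ∑ n ∈ Finset.Icc 1 N, (FS n X).ncard :=
    (Set.ncard_le_ncard hsub hfin).trans (Finset.set_ncard_biUnion_le _ _)
  have h2 : ({K : IntermediateField ℚ ℂ | ∃ _ : NumberField K, |(discr K : ℝ)| ≤ X}.ncard : ℝ) ≤
      ∑ n ∈ Finset.Icc 1 N, ((FS n X).ncard : ℝ) := by exact_mod_cast h1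
  have h3 : ∑ n ∈ Finset.Icc 1 N, ((FS n X).ncard : ℝ) ≤ N * B := by
    have := Finset.sum_le_card_nsmul (Finset.Icc 1 N) (fun n => ((FS n X).ncard : ℝ)) B
      (fun n hn => (hterm n hn).2)
    rwa [nsmul_eq_mul, Nat.card_Icc, Nat.add_sub_cancel] at this
  have h4 : (N : ℝ) ≤ 2 * Real.log X := Nat.floor_le (by linarith)
  have h5 : 2 * Real.log X ≤ Real.exp (Real.log X * Real.log (Real.log X) ^ 2) := by
    have h6 : Real.log X / 2 + 1 ≤ Real.exp (Real.log X / 2) := Real.add_one_le_exp _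
    have h7 : Real.exp (Real.log X) = Real.exp (Real.log X / 2) * Real.exp (Real.log X / 2) := by
      rw [← Real.exp_add]; ring_nf
    have h8 : 2 * Real.log X ≤ Real.exp (Real.log X) := by
      rw [h7]
      nlinarith [mul_le_mul h6 h6 (by linarith) (Real.exp_pos _).le,
        sq_nonneg (Real.log X / 2 - 1)]
    refine h8.trans (Real.exp_le_exp.2 ?_)
    have : (1 : ℝ) ≤ Real.log (Real.log X) ^ 2 := by nlinarith
    nlinarith
  have hB0 : 0 ≤ B := by linarith
  calc ({K : IntermediateField ℚ ℂ | ∃ _ : NumberField K, |(discr K : ℝ)| ≤ X}.ncard : ℝ)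
      ≤ N * B := h2.trans h3
    _ ≤ Real.exp (Real.log X * Real.log (Real.log X) ^ 2) * B :=
        mul_le_mul_of_nonneg_right (h4.trans h5) hB0
    _ = X ^ ((8 * C + 31) * (Real.log (Real.log X)) ^ 2) := by
        rw [hB, ← Real.exp_add, Real.rpow_def_of_pos (by linarith : (0 : ℝ) < X)]
        congr 1
        ring

end NFU
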